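import Pool.Agent.Wex.Defs

/-! The sum of all simple modules of `S` extends to `L`, if `L ⧸ S` is cyclic (`k` algebraically closed). -/

set_option autoImplicit false

namespace Pool.Agent.Wex

open MonoidAlgebra Pool.Agent.Wil Pool.Agent.Wnx Pool.Agent.Wpp Pool.Agent.Wrc

-- BEGIN irr_pos
/-- PROOF. Copy the proof of `irr_exists` (Wrc/Cl.lean); `IsSemisimpleRing.exists_algEquiv_pi_matrix_of_isAlgClosed` also gives `∀ i, NeZero (d i)`. -/
theorem irr_pos (k H : Type) [Field k] [IsAlgClosed k] [Group H] [Finite H] :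
    ∃ (r : ℕ) (d : Fin r → ℕ), (∀ i, 0 < d i) ∧ Nonempty (IrrData k H r d) := by
  classical
  have : Module.Finite k (MonoidAlgebra k H) := inferInstance
  have : IsArtinianRing (MonoidAlgebra k H) := art k (MonoidAlgebra k H)
  have hss : IsSemisimpleRing (MonoidAlgebra k H ⧸ Ring.jacobson (MonoidAlgebra k H)) := inferInstance
  let φ₀ : MonoidAlgebra k H →ₐ[k] (MonoidAlgebra k H ⧸ Ring.jacobson (MonoidAlgebra k H)) :=
    Ideal.Quotient.mkₐ k _
  have hφ₀ : Function.Surjective φ₀ := Ideal.Quotient.mkₐ_surjective k _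
  have : FiniteDimensional k (MonoidAlgebra k H ⧸ Ring.jacobson (MonoidAlgebra k H)) :=
    Module.Finite.of_surjective φ₀.toLinearMap hφ₀
  obtain ⟨r, d, hd, ⟨e⟩⟩ := IsSemisimpleRing.exists_algEquiv_pi_matrix_of_isAlgClosed k
    (MonoidAlgebra k H ⧸ Ring.jacobson (MonoidAlgebra k H))
  let φ : MonoidAlgebra k H →ₐ[k] (∀ i, Matrix (Fin (d i)) (Fin (d i)) k) :=
    (e : _ →ₐ[k] (∀ i, Matrix (Fin (d i)) (Fin (d i)) k)).comp φ₀
  have hφ : Function.Surjective φ := e.surjective.comp hφ₀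
  let V : ∀ i, H →* Matrix (Fin (d i)) (Fin (d i)) k := fun i =>
    (((Pi.evalAlgHom k (fun i => Matrix (Fin (d i)) (Fin (d i)) k) i).comp φ :
      MonoidAlgebra k H →ₐ[k] Matrix (Fin (d i)) (Fin (d i)) k) :
        MonoidAlgebra k H →* Matrix (Fin (d i)) (Fin (d i)) k).comp (MonoidAlgebra.of k H)
  have hV : ∀ i, MonoidAlgebra.lift k (Matrix (Fin (d i)) (Fin (d i)) k) H (V i) =
      (Pi.evalAlgHom k (fun i => Matrix (Fin (d i)) (Fin (d i)) k) i).comp φ := by
    intro i
    exact (MonoidAlgebra.lift k (Matrix (Fin (d i)) (Fin (d i)) k) H).apply_symm_apply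
      ((Pi.evalAlgHom k (fun i => Matrix (Fin (d i)) (Fin (d i)) k) i).comp φ)
  choose ee hee using fun i => hφ (Pi.single i 1)
  refine ⟨r, d, fun i => Nat.pos_of_ne_zero (hd i).out, ⟨{ V := V, e := ee, span := ?_, he := ?_, sum := ?_ }⟩⟩
  · intro i
    rw [eq_top_iff]
    intro M _
    obtain ⟨x, hx⟩ := hφ (Pi.single i M)
    have h1 : M = MonoidAlgebra.lift k (Matrix (Fin (d i)) (Fin (d i)) k) H (V i) x := by
      rw [hV]
      show M = φ x i
      rw [hx, Pi.single_eq_same]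
    rw [h1, MonoidAlgebra.lift_apply]
    exact Submodule.sum_mem _ fun h _ => Submodule.smul_mem _ _ (Submodule.subset_span ⟨h, rfl⟩)
  · intro i j
    rw [hV]
    show φ (ee i) j = _
    rw [hee]
    by_cases hij : i = j
    · subst hij
      rw [Pi.single_eq_same, if_pos rfl]
    · rw [Pi.single_eq_of_ne (Ne.symm hij), if_neg hij]
  · have h1 : ssDim k H = Module.finrank k (MonoidAlgebra k H ⧸ Ring.jacobson (MonoidAlgebra k H)) :=
      (Submodule.Quotient.restrictScalarsEquiv k (Ring.jacobson (MonoidAlgebra k H))).finrank_eq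
    rw [h1, e.toLinearEquiv.finrank_eq, Module.finrank_pi_fintype]
    refine Finset.sum_congr rfl fun i _ => ?_
    rw [Module.finrank_matrix, Module.finrank_self, Fintype.card_fin]
    ring
-- END irr_pos

section
variable {k H : Type} [Field k] [Group H] {r : ℕ} {d : Fin r → ℕ}

-- BEGIN ker_jac
/-- PROOF. The map `Φ u = (lift (D.V i) u)_i` of `k[H]` to `∀ i, Matrix (Fin (d i)) (Fin (d i)) k` is onto (`D.span`, `D.he`: given `Z` take `∑ i, e i * a i` with `lift (V i) (a i) = Z i`), the target is semisimple, so `Φ` kills the radical (`Ring.le_comap_jacobson` or `Ring.map_jacobson_le`; `IsSemisimpleRing.jacobson_eq_bot`), and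
the dimensions of the kernel and of the radical agree by `D.sum` (definition of `ssDim`, `Submodule.eq_of_le_of_finrank_eq`). -/
theorem ker_jac [Finite H] (D : IrrData k H r d) (u : MonoidAlgebra k H)
    (hu : ∀ i, MonoidAlgebra.lift k (Matrix (Fin (d i)) (Fin (d i)) k) H (D.V i) u = 0) :
    u ∈ Ring.jacobson (MonoidAlgebra k H) := by
  classical
  have hfin : Module.Finite k (MonoidAlgebra k H) := inferInstance
  let L : ∀ i, MonoidAlgebra k H →ₐ[k] Matrix (Fin (d i)) (Fin (d i)) k := fun i =>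
    MonoidAlgebra.lift k (Matrix (Fin (d i)) (Fin (d i)) k) H (D.V i)
  let Φ : MonoidAlgebra k H →ₐ[k] (∀ i, Matrix (Fin (d i)) (Fin (d i)) k) := AlgHom.pi L
  have hΦ : ∀ x i, Φ x i = L i x := fun x i => rfl
  have hL : ∀ i, Function.Surjective (L i) := by
    intro i M
    have hM : M ∈ Submodule.span k (Set.range (D.V i)) := by rw [D.span i]; trivial
    have hle : Submodule.span k (Set.range (D.V i)) ≤ LinearMap.range (L i).toLinearMap := by
      rw [Submodule.span_le]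
      rintro _ ⟨h, rfl⟩
      refine ⟨MonoidAlgebra.of k H h, ?_⟩
      show MonoidAlgebra.lift k (Matrix (Fin (d i)) (Fin (d i)) k) H (D.V i) (MonoidAlgebra.of k H h) = D.V i h
      exact MonoidAlgebra.lift_of _ _
    obtain ⟨x, hx⟩ := hle hM
    exact ⟨x, hx⟩
  have hsur : Function.Surjective Φ := by
    intro Z
    choose a ha using fun i => hL i (Z i)
    refine ⟨∑ i, D.e i * a i, ?_⟩
    funext j
    rw [hΦ, map_sum, Finset.sum_eq_single j]
    · rw [map_mul, ha]
      have h1 : L j (D.e j) = 1 := by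
        have h2 := D.he j j
        rw [if_pos rfl] at h2
        exact h2
      rw [h1, one_mul]
    · intro i _ hij
      rw [map_mul]
      have h1 : L j (D.e i) = 0 := by
        have h2 := D.he i j
        rw [if_neg hij] at h2
        exact h2
      rw [h1, zero_mul]
    · intro h
      exact absurd (Finset.mem_univ j) h
  have hrs : RingHomSurjective (Φ.toRingHom) := ⟨hsur⟩
  have hle0 : Ring.jacobson (MonoidAlgebra k H) ≤
      Ideal.comap Φ.toRingHom (Ring.jacobson (∀ i, Matrix (Fin (d i)) (Fin (d i)) k)) :=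
    Ring.le_comap_jacobson Φ.toRingHom
  have hss : IsSemisimpleRing (∀ i, Matrix (Fin (d i)) (Fin (d i)) k) := inferInstance
  have hbot : Ring.jacobson (∀ i, Matrix (Fin (d i)) (Fin (d i)) k) = ⊥ :=
    IsSemisimpleRing.jacobson_eq_bot _
  have hle : (Ring.jacobson (MonoidAlgebra k H)).restrictScalars k ≤ LinearMap.ker Φ.toLinearMap := by
    intro x hx
    have h1 := hle0 hx
    rw [hbot] at h1
    exact h1
  have hfr : Module.finrank k ((Ring.jacobson (MonoidAlgebra k H)).restrictScalars k) =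
      Module.finrank k (LinearMap.ker Φ.toLinearMap) := by
    have h1 := Submodule.finrank_quotient_add_finrank ((Ring.jacobson (MonoidAlgebra k H)).restrictScalars k)
    have h2 := LinearMap.finrank_range_add_finrank_ker Φ.toLinearMap
    rw [LinearMap.range_eq_top.2 hsur, finrank_top, Module.finrank_pi_fintype] at h2
    have h3 : ∑ i, Module.finrank k (Matrix (Fin (d i)) (Fin (d i)) k) =
        Module.finrank k (MonoidAlgebra k H ⧸ (Ring.jacobson (MonoidAlgebra k H)).restrictScalars k) := by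
      have h4 := D.sum
      unfold ssDim at h4
      rw [← h4]
      refine Finset.sum_congr rfl fun i _ => ?_
      rw [Module.finrank_matrix, Module.finrank_self, Fintype.card_fin]
      ring
    rw [h3] at h2
    omega
  have heq := Submodule.eq_of_le_of_finrank_eq hle hfr
  have hmem : u ∈ LinearMap.ker Φ.toLinearMap := by
    rw [LinearMap.mem_ker]
    show Φ u = 0
    funext i
    rw [hΦ]
    exact hu i
  rw [← heq] at hmem
  exact hmem
-- END ker_jac

-- BEGIN irr_uniq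
private theorem irr_uniq_surj {ι : Type} [Fintype ι] [DecidableEq ι] (V : H →* Matrix ι ι k)
    (hV : Submodule.span k (Set.range V) = ⊤) :
    Function.Surjective (MonoidAlgebra.lift k (Matrix ι ι k) H V) := by
  have h2 : LinearMap.range (MonoidAlgebra.lift k (Matrix ι ι k) H V).toLinearMap = ⊤ := by
    rw [eq_top_iff, ← hV, Submodule.span_le]
    rintro _ ⟨n, rfl⟩
    refine ⟨MonoidAlgebra.single n 1, ?_⟩
    show MonoidAlgebra.lift k (Matrix ι ι k) H V (MonoidAlgebra.single n 1) = V n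
    rw [MonoidAlgebra.lift_single, one_smul]
  exact LinearMap.range_eq_top.1 h2

private theorem irr_uniq_jac {A : Type} [Ring A] [Algebra k A] {m : ℕ} (hm : 0 < m)
    (F : A →ₐ[k] Matrix (Fin m) (Fin m) k) (hF : Function.Surjective F) (u : A)
    (hu : u ∈ Ring.jacobson A) : F u = 0 := by
  have : Nonempty (Fin m) := ⟨⟨0, hm⟩⟩
  have h0 : RingHomSurjective (F : A →+* Matrix (Fin m) (Fin m) k) := ⟨hF⟩
  have h1 : F u ∈ Ring.jacobson (Matrix (Fin m) (Fin m) k) :=
    Ring.le_comap_jacobson (F : A →+* Matrix (Fin m) (Fin m) k) hu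
  have h2 : Ring.jacobson (Matrix (Fin m) (Fin m) k) = ⊥ := IsSemisimpleRing.jacobson_eq_bot _
  rw [h2] at h1
  exact (Submodule.mem_bot _).1 h1

private theorem irr_uniq_prod {m : ℕ} (X Z : Matrix (Fin m) (Fin m) k) (hZ : Z ≠ 0)
    (h : ∀ Y : Matrix (Fin m) (Fin m) k, X * Y * Z = 0) : X = 0 := by
  obtain ⟨w, z, hwz⟩ : ∃ w z, Z w z ≠ 0 := by
    by_contra hcon
    push Not at hcon
    exact hZ (by ext w z; exact hcon w z)
  ext u v
  have h1 := congrFun (congrFun (h (Matrix.single v w 1)) u) z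
  rw [Matrix.mul_apply, Finset.sum_eq_single w] at h1
  · rw [Matrix.mul_apply, Finset.sum_eq_single v] at h1
    · rw [Matrix.single_apply_same, mul_one, Matrix.zero_apply] at h1
      rw [Matrix.zero_apply]
      exact (mul_eq_zero.1 h1).resolve_right hwz
    · intro b _ hb
      rw [Matrix.single_apply_of_ne, mul_zero]
      rintro ⟨h2, _⟩
      exact hb h2.symm
    · intro h2
      exact absurd (Finset.mem_univ _) h2
  · intro b _ hb
    rw [Matrix.mul_apply, Finset.sum_eq_zero, zero_mul]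
    intro c _
    rw [Matrix.single_apply_of_ne, mul_zero]
    rintro ⟨_, h2⟩
    exact hb h2.symm
  · intro h2
    exact absurd (Finset.mem_univ _) h2

private theorem irr_uniq_dim {A : Type} [Ring A] [Algebra k A] {m n : ℕ} (hm : 0 < m)
    (F : A →ₐ[k] Matrix (Fin m) (Fin m) k) (hF : Function.Surjective F)
    (G : A →ₐ[k] Matrix (Fin n) (Fin n) k) (hG : Function.Surjective G)
    (h : ∀ a, G a = 0 → F a = 0) : n = m := by
  have hne : Nonempty (Fin m) := ⟨⟨0, hm⟩⟩
  have hn : 0 < n := by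
    by_contra hcon
    have h0 : n = 0 := by omega
    subst h0
    have h1 : F 1 = 0 := h 1 (Subsingleton.elim _ _)
    rw [map_one] at h1
    exact one_ne_zero h1
  have hne' : Nonempty (Fin n) := ⟨⟨0, hn⟩⟩
  choose g hg using hG
  have hwd : ∀ a b, G a = G b → F a = F b := by
    intro a b hab
    have h1 : G (a - b) = 0 := by rw [map_sub, hab, sub_self]
    have h2 := h _ h1
    rw [map_sub] at h2
    exact sub_eq_zero.1 h2
  have hβ : ∀ a, F (g (G a)) = F a := fun a => hwd _ _ (hg (G a))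
  let β : Matrix (Fin n) (Fin n) k →ₐ[k] Matrix (Fin m) (Fin m) k :=
    AlgHom.ofLinearMap
      { toFun := fun M => F (g M)
        map_add' := fun M N => by
          rw [← map_add F (g M) (g N)]
          exact hwd _ _ (by rw [hg, map_add, hg, hg])
        map_smul' := fun c M => by
          rw [RingHom.id_apply, ← map_smul F c (g M)]
          exact hwd _ _ (by rw [hg, map_smul, hg]) }
      ((hwd _ _ (by rw [hg, map_one])).trans (map_one F))
      (fun M N => by
        show F (g (M * N)) = F (g M) * F (g N)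
        rw [← map_mul F]
        exact hwd _ _ (by rw [hg, map_mul, hg, hg]))
  have hsurj : Function.Surjective β := by
    intro M
    obtain ⟨a, ha⟩ := hF M
    exact ⟨G a, (hβ a).trans ha⟩
  have hinj : Function.Injective β := RingHom.injective (β : Matrix (Fin n) (Fin n) k →+* Matrix (Fin m) (Fin m) k)
  have h3 := LinearEquiv.finrank_eq (LinearEquiv.ofBijective β.toLinearMap ⟨hinj, hsurj⟩)
  rw [Module.finrank_matrix, Module.finrank_matrix, Fintype.card_fin, Fintype.card_fin, Module.finrank_self, mul_one,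
    mul_one] at h3
  exact Nat.mul_self_inj.1 h3

/-- PROOF. `F = lift U` is onto `Matrix (Fin m) (Fin m) k` (`hU`), a simple ring, so `F` kills the radical. `1 - ∑ i, D.e i` is in the radical (`ker_jac`, `D.he`), so `∑ i, F (D.e i) = 1 ≠ 0` (`0 < m`): some `F (D.e j) ≠ 0`. If `lift (D.V j) a = 0` then for all `x` the element `a * x * D.e j` is in the radical (`ker_jac`), so
`F a * F x * F (D.e j) = 0` for all `x`, `F` is onto, so `F a = 0` (if `F a u v ≠ 0` and `F (D.e j) w z ≠ 0` take `F x = Matrix.single v w 1`). So `F` factors through `lift (D.V j)`: an algebra homomorphism `Matrix (Fin (d j)) .. → Matrix (Fin m) ..`, onto, and injective (simple ring), so `d j ^ 2 = m ^ 2`, `d j = m`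
(`Module.finrank_matrix`); `subst` (or `Fin.cast`), then `intertw` (Wpp/Inn.lean) gives an invertible `P`. -/
theorem irr_uniq [Finite H] (D : IrrData k H r d) {m : ℕ} (hm : 0 < m) (U : H →* Matrix (Fin m) (Fin m) k)
    (hU : Submodule.span k (Set.range U) = ⊤) :
    ∃ (j : Fin r) (A : Matrix (Fin (d j)) (Fin m) k) (B : Matrix (Fin m) (Fin (d j)) k),
      A * B = 1 ∧ B * A = 1 ∧ ∀ s, D.V j s * A = A * U s := by
  have hne : Nonempty (Fin m) := ⟨⟨0, hm⟩⟩
  have hFs := irr_uniq_surj U hU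
  have hFj := irr_uniq_jac hm (MonoidAlgebra.lift k (Matrix (Fin m) (Fin m) k) H U) hFs
  obtain ⟨j, hj⟩ : ∃ j, MonoidAlgebra.lift k (Matrix (Fin m) (Fin m) k) H U (D.e j) ≠ 0 := by
    by_contra hcon
    push Not at hcon
    have h1 : (1 - ∑ i, D.e i) ∈ Ring.jacobson (MonoidAlgebra k H) := by
      refine ker_jac D _ fun j => ?_
      rw [map_sub, map_one, map_sum, Finset.sum_congr rfl fun i _ => D.he i j, Finset.sum_ite_eq',
        if_pos (Finset.mem_univ j), sub_self]
    have h2 := hFj _ h1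
    rw [map_sub, map_one, map_sum, Finset.sum_eq_zero fun i _ => hcon i, sub_zero] at h2
    exact one_ne_zero h2
  have hker : ∀ a, MonoidAlgebra.lift k (Matrix (Fin (d j)) (Fin (d j)) k) H (D.V j) a = 0 →
      MonoidAlgebra.lift k (Matrix (Fin m) (Fin m) k) H U a = 0 := by
    intro a ha
    refine irr_uniq_prod _ _ hj fun Y => ?_
    obtain ⟨x, rfl⟩ := hFs Y
    rw [← map_mul, ← map_mul]
    refine hFj _ (ker_jac D _ fun i => ?_)
    rw [map_mul, map_mul, D.he j i]
    by_cases hij : j = i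
    · subst hij
      rw [ha, zero_mul, zero_mul]
    · rw [if_neg hij, mul_zero]
  have hGs := irr_uniq_surj (D.V j) (D.span j)
  have hd : d j = m := irr_uniq_dim hm _ hFs _ hGs hker
  subst hd
  obtain ⟨P, hP, hP'⟩ := intertw _ _ hGs hFs hker
  refine ⟨j, P⁻¹, P, Matrix.nonsing_inv_mul P hP, Matrix.mul_nonsing_inv P hP, fun s => ?_⟩
  have h1 := hP' (MonoidAlgebra.single s 1)
  rw [MonoidAlgebra.lift_single, MonoidAlgebra.lift_single, one_smul, one_smul] at h1
  calc D.V j s * P⁻¹ = P⁻¹ * (P * D.V j s) * P⁻¹ := by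
        rw [← Matrix.mul_assoc, Matrix.nonsing_inv_mul P hP, Matrix.one_mul]
    _ = P⁻¹ * (U s * P) * P⁻¹ := by rw [h1]
    _ = P⁻¹ * U s := by
        rw [Matrix.mul_assoc, Matrix.mul_assoc, Matrix.mul_nonsing_inv P hP, Matrix.mul_one]
-- END irr_uniq

-- BEGIN schurX
/-- PROOF. `C` commutes with `WL D u` for all `u` (`MonoidAlgebra.lift_apply`, or induction), in particular with the matrix units of `unit_exists` (Wrc/Rp.lean) for `j.1 = j'.1`; compare entries. -/
theorem schurX (D : IrrData k H r d) (C : Matrix (Σ i, Fin (d i)) (Σ i, Fin (d i)) k)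
    (hC : ∀ s, C * Wrc.W D s = Wrc.W D s * C) :
    ∃ c : Fin r → k, ∀ j j', C j j' = if j = j' then c j.1 else 0 := by
  have hWL : ∀ u, C * WL D u = WL D u * C := by
    intro u
    induction u using MonoidAlgebra.induction_linear with
    | zero => rw [map_zero, mul_zero, zero_mul]
    | add f g hf hg => rw [map_add, mul_add, add_mul, hf, hg]
    | single h c =>
      have h1 : WL D (MonoidAlgebra.single h c) = c • Wrc.W D h := MonoidAlgebra.lift_single _ _ _
      rw [h1, Matrix.mul_smul, Matrix.smul_mul, hC]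
  have key : ∀ j j' : Σ i, Fin (d i), j.1 = j'.1 → ∀ a b,
      (if b = j' then C a j else 0) = (if a = j then C j' b else 0) := by
    intro j j' hj a b
    obtain ⟨u, hu⟩ := unit_exists D j j' hj
    have h1 := congrFun (congrFun (hWL u) a) b
    rw [Matrix.mul_apply, Matrix.mul_apply] at h1
    simp only [hu] at h1
    have e1 : ∑ x, C a x * (if x = j ∧ b = j' then (1 : k) else 0) =
        if b = j' then C a j else 0 := by
      rw [Finset.sum_eq_single j]
      · by_cases h : b = j'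
        · rw [if_pos ⟨rfl, h⟩, if_pos h, mul_one]
        · rw [if_neg (fun hh => h hh.2), if_neg h, mul_zero]
      · intro x _ hx
        rw [if_neg (fun hh => hx hh.1), mul_zero]
      · intro h
        exact absurd (Finset.mem_univ _) h
    have e2 : ∑ x, (if a = j ∧ x = j' then (1 : k) else 0) * C x b =
        if a = j then C j' b else 0 := by
      rw [Finset.sum_eq_single j']
      · by_cases h : a = j
        · rw [if_pos ⟨h, rfl⟩, if_pos h, one_mul]
        · rw [if_neg (fun hh => h hh.1), if_neg h, zero_mul]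
      · intro x _ hx
        rw [if_neg (fun hh => hx hh.2), zero_mul]
      · intro h
        exact absurd (Finset.mem_univ _) h
    exact e1.symm.trans (h1.trans e2)
  have hne : ∀ a j, a ≠ j → C a j = 0 := by
    intro a j haj
    have h1 := key j j rfl a j
    rw [if_pos rfl, if_neg haj] at h1
    exact h1
  have heq : ∀ j j' : Σ i, Fin (d i), j.1 = j'.1 → C j j = C j' j' := by
    intro j j' hj
    have h1 := key j j' hj j j'
    rw [if_pos rfl, if_pos rfl] at h1
    exact h1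
  refine ⟨fun i => if h : 0 < d i then C ⟨i, ⟨0, h⟩⟩ ⟨i, ⟨0, h⟩⟩ else 0, fun j j' => ?_⟩
  by_cases hj : j = j'
  · subst hj
    have hd : 0 < d j.1 := lt_of_le_of_lt (Nat.zero_le _) j.2.2
    rw [if_pos rfl]
    have e3 : C j j = C ⟨j.1, ⟨0, hd⟩⟩ ⟨j.1, ⟨0, hd⟩⟩ := heq _ _ rfl
    have e4 : (if h : 0 < d j.1 then C ⟨j.1, ⟨0, h⟩⟩ ⟨j.1, ⟨0, h⟩⟩ else 0) =
        C ⟨j.1, ⟨0, hd⟩⟩ ⟨j.1, ⟨0, hd⟩⟩ := by
      rw [dif_pos hd]
    exact e3.trans e4.symm
  · rw [if_neg hj]
    exact hne j j' hj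
-- END schurX

end

section
variable {k L : Type} [Field k] [Group L] {S : Subgroup L} {r : ℕ} {d : Fin r → ℕ}

-- BEGIN twist_one
/-- PROOF. `irr_uniq` for `U s = D.V i ((MulAut.conjNormal t).symm s)`, whose range is the range of `D.V i` (`D.span`). -/
theorem twist_one [Finite L] [S.Normal] (D : IrrData k S r d) (t : L) (i : Fin r) (hi : 0 < d i) :
    ∃ (j : Fin r) (A : Matrix (Fin (d j)) (Fin (d i)) k) (B : Matrix (Fin (d i)) (Fin (d j)) k),
      A * B = 1 ∧ B * A = 1 ∧ ∀ s : S, A * D.V i s = D.V j (MulAut.conjNormal t s) * A := by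
  let φ : S ≃* S := (MulAut.conjNormal t : MulAut S)
  have hU : Submodule.span k (Set.range ((D.V i).comp φ.symm.toMonoidHom)) = ⊤ := by
    have h1 : Set.range ((D.V i).comp φ.symm.toMonoidHom) = Set.range (D.V i) := by
      rw [MonoidHom.coe_comp]
      exact φ.symm.surjective.range_comp (D.V i)
    rw [h1]
    exact D.span i
  obtain ⟨j, A, B, h1, h2, h3⟩ := irr_uniq D hi ((D.V i).comp φ.symm.toMonoidHom) hU
  refine ⟨j, A, B, h1, h2, fun s => ?_⟩
  have h4 := h3 (φ s)
  have h5 : ((D.V i).comp φ.symm.toMonoidHom) (φ s) = D.V i s :=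
    congrArg (D.V i) (φ.symm_apply_apply s)
  rw [h5] at h4
  exact h4.symm
-- END twist_one

-- BEGIN twistX
private theorem twistX_inj [S.Normal] (D : IrrData k S r d) (t : L) (i i' j : Fin r) (hpos : 0 < d i)
    (A : Matrix (Fin (d j)) (Fin (d i)) k) (B : Matrix (Fin (d i)) (Fin (d j)) k)
    (A' : Matrix (Fin (d j)) (Fin (d i')) k) (B' : Matrix (Fin (d i')) (Fin (d j)) k)
    (hBA : B * A = 1) (hAB' : A' * B' = 1) (hBA' : B' * A' = 1)
    (hA : ∀ s : S, A * D.V i s = D.V j (MulAut.conjNormal t s) * A)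
    (hA' : ∀ s : S, A' * D.V i' s = D.V j (MulAut.conjNormal t s) * A') : i = i' := by
  by_contra hne
  have hP : ∀ s : S, (B' * A) * D.V i s = D.V i' s * (B' * A) := by
    intro s
    calc (B' * A) * D.V i s = B' * (D.V j (MulAut.conjNormal t s) * (A' * B')) * A := by
          rw [hAB', Matrix.mul_one, Matrix.mul_assoc B' A, hA s, Matrix.mul_assoc]
      _ = B' * (D.V j (MulAut.conjNormal t s) * A') * B' * A := by
          simp only [Matrix.mul_assoc]
      _ = (B' * A') * D.V i' s * B' * A := by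
          rw [← hA' s]
          simp only [Matrix.mul_assoc]
      _ = D.V i' s * (B' * A) := by
          rw [hBA', Matrix.one_mul, Matrix.mul_assoc]
  have hL : ∀ u : MonoidAlgebra k S,
      (B' * A) * MonoidAlgebra.lift k (Matrix (Fin (d i)) (Fin (d i)) k) S (D.V i) u =
        MonoidAlgebra.lift k (Matrix (Fin (d i')) (Fin (d i')) k) S (D.V i') u * (B' * A) := by
    intro u
    induction u using MonoidAlgebra.induction_linear with
    | zero => rw [map_zero, map_zero, Matrix.mul_zero, Matrix.zero_mul]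
    | add f g hf hg => rw [map_add, map_add, Matrix.mul_add, Matrix.add_mul, hf, hg]
    | single a b =>
      rw [MonoidAlgebra.lift_single, MonoidAlgebra.lift_single, Matrix.mul_smul, Matrix.smul_mul, hP a]
  have h0 : B' * A = 0 := by
    have h := hL (D.e i)
    rw [D.he, D.he, if_pos rfl, if_neg hne, Matrix.mul_one, Matrix.zero_mul] at h
    exact h
  have h1 : (1 : Matrix (Fin (d i)) (Fin (d i)) k) = 0 := by
    calc (1 : Matrix (Fin (d i)) (Fin (d i)) k) = B * (A' * B') * A := by rw [hAB', Matrix.mul_one, hBA]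
      _ = B * A' * (B' * A) := by simp only [Matrix.mul_assoc]
      _ = 0 := by rw [h0, Matrix.mul_zero]
  have h2 := congrFun (congrFun h1 ⟨0, hpos⟩) ⟨0, hpos⟩
  rw [Matrix.one_apply_eq, Matrix.zero_apply] at h2
  exact one_ne_zero h2

private theorem twistX_bd (n : Fin r → ℕ) (κ : Equiv.Perm (Fin r)) (X : ∀ i, Matrix (Fin (n i)) (Fin (n i)) k)
    (a b : Σ i, Fin (n (κ i))) :
    Matrix.blockDiagonal' X (Equiv.sigmaCongrLeft (β := fun i => Fin (n i)) κ a)
      (Equiv.sigmaCongrLeft (β := fun i => Fin (n i)) κ b) = Matrix.blockDiagonal' (fun i => X (κ i)) a b := by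
  obtain ⟨i, x⟩ := a
  obtain ⟨i', y⟩ := b
  by_cases h : i = i'
  · subst h
    rw [Matrix.blockDiagonal'_apply_eq]
    exact Matrix.blockDiagonal'_apply_eq X (κ i) x y
  · rw [Matrix.blockDiagonal'_apply_ne _ _ _ h]
    exact Matrix.blockDiagonal'_apply_ne X x y (fun hh => h (κ.injective hh))

private theorem twistX_mat [S.Normal] (D : IrrData k S r d) (t : L) (κ : Equiv.Perm (Fin r))
    (A : ∀ i, Matrix (Fin (d (κ i))) (Fin (d i)) k) (B : ∀ i, Matrix (Fin (d i)) (Fin (d (κ i))) k)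
    (hAB : ∀ i, A i * B i = 1) (hBA : ∀ i, B i * A i = 1)
    (hA : ∀ i, ∀ s : S, A i * D.V i s = D.V (κ i) (MulAut.conjNormal t s) * A i) :
    ∃ M : Matrix (Σ i, Fin (d i)) (Σ i, Fin (d i)) k, IsUnit M ∧
      (∀ s : S, M * Wrc.W D s = Wrc.W D (MulAut.conjNormal t s) * M) ∧
      (∀ j j', j.1 ≠ κ j'.1 → M j j' = 0) := by
  classical
  let E : (Σ i, Fin (d (κ i))) ≃ (Σ i, Fin (d i)) := Equiv.sigmaCongrLeft (β := fun i => Fin (d i)) κ
  have hE : ∀ a, (E a).1 = κ a.1 := fun a => rfl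
  let M : Matrix (Σ i, Fin (d i)) (Σ i, Fin (d i)) k := (Matrix.blockDiagonal' A).submatrix E.symm id
  let N : Matrix (Σ i, Fin (d i)) (Σ i, Fin (d i)) k := (Matrix.blockDiagonal' B).submatrix id E.symm
  have hMN : M * N = 1 := by
    have h1 : (Matrix.blockDiagonal' A) * (Matrix.blockDiagonal' B) = 1 := by
      rw [← Matrix.blockDiagonal'_mul]
      have h2 : (fun i => A i * B i) = 1 := by
        funext i
        exact hAB i
      rw [h2, Matrix.blockDiagonal'_one]
    show (Matrix.blockDiagonal' A).submatrix E.symm id * (Matrix.blockDiagonal' B).submatrix id E.symm = 1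
    rw [← Matrix.submatrix_mul _ _ E.symm id E.symm Function.bijective_id, h1, Matrix.submatrix_one_equiv]
  have hNM : N * M = 1 := by
    have h1 : (Matrix.blockDiagonal' B) * (Matrix.blockDiagonal' A) = 1 := by
      rw [← Matrix.blockDiagonal'_mul]
      have h2 : (fun i => B i * A i) = 1 := by
        funext i
        exact hBA i
      rw [h2, Matrix.blockDiagonal'_one]
    show (Matrix.blockDiagonal' B).submatrix id E.symm * (Matrix.blockDiagonal' A).submatrix E.symm id = 1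
    rw [← Matrix.submatrix_mul _ _ id E.symm id E.symm.bijective, h1, Matrix.submatrix_one _ Function.injective_id]
  refine ⟨M, ⟨⟨M, N, hMN, hNM⟩, rfl⟩, ?_, ?_⟩
  · intro s
    have hW : Wrc.W D (MulAut.conjNormal t s) =
        (Matrix.blockDiagonal' fun i => D.V (κ i) (MulAut.conjNormal t s)).submatrix E.symm E.symm := by
      ext a b
      obtain ⟨a, rfl⟩ := E.surjective a
      obtain ⟨b, rfl⟩ := E.surjective b
      rw [Matrix.submatrix_apply, Equiv.symm_apply_apply, Equiv.symm_apply_apply]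
      exact twistX_bd d κ (fun i => D.V i (MulAut.conjNormal t s)) a b
    rw [hW]
    show (Matrix.blockDiagonal' A).submatrix E.symm id * (Matrix.blockDiagonal' fun i => D.V i s) =
      (Matrix.blockDiagonal' fun i => D.V (κ i) (MulAut.conjNormal t s)).submatrix E.symm E.symm *
        (Matrix.blockDiagonal' A).submatrix E.symm id
    have h3 : (Matrix.blockDiagonal' A).submatrix E.symm id * (Matrix.blockDiagonal' fun i => D.V i s) =
        ((Matrix.blockDiagonal' A) * (Matrix.blockDiagonal' fun i => D.V i s)).submatrix E.symm id := by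
      rw [Matrix.submatrix_mul _ _ E.symm id id Function.bijective_id, Matrix.submatrix_id_id]
    rw [h3, ← Matrix.submatrix_mul _ _ E.symm E.symm id E.symm.bijective, ← Matrix.blockDiagonal'_mul,
      ← Matrix.blockDiagonal'_mul]
    congr 2
    funext i
    exact hA i s
  · intro j j' hj
    obtain ⟨a, rfl⟩ := E.surjective j
    show (Matrix.blockDiagonal' A) (E.symm (E a)) j' = 0
    rw [Equiv.symm_apply_apply]
    obtain ⟨i, x⟩ := a
    obtain ⟨i', y⟩ := j'
    exact Matrix.blockDiagonal'_apply_ne A x y (fun hh => hj (by rw [hE]; exact congrArg κ hh))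

/-- PROOF. Choose `κ i`, `A i`, `B i` by `twist_one`. `κ` is injective: if `κ i = κ i' = j` then `P = B i' * A i` (with the casts of `j`) satisfies `P * V i s = V i' s * P` and is invertible, so `P * lift (V i) (e i) = lift (V i') (e i) * P` (linearity), so `P = 0` if `i ≠ i'` (`D.he`), a contradiction to `0 < d i`. So `κ` is a permutation (`Finite.injective_iff_bijective`).
`d (κ i) = d i`, because `A i`, `B i` are inverse rectangular matrices (rank, or `Matrix.toLin'` equivalence). `M j j' = if h : j.1 = κ j'.1 then A j'.1 (cast j.2) j'.2 else 0`, its inverse is built from the `B i`; `W` is block diagonal. -/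
theorem twistX [Finite L] [S.Normal] (D : IrrData k S r d) (hpos : ∀ i, 0 < d i) (t : L) :
    ∃ (M : Matrix (Σ i, Fin (d i)) (Σ i, Fin (d i)) k) (κ : Equiv.Perm (Fin r)), IsUnit M ∧
      (∀ s : S, M * Wrc.W D s = Wrc.W D (MulAut.conjNormal t s) * M) ∧
      (∀ j j', j.1 ≠ κ j'.1 → M j j' = 0) ∧ ∀ i, d (κ i) = d i := by
  choose κ₀ A B hAB hBA hA using fun i => twist_one D t i (hpos i)
  have hinj : Function.Injective κ₀ := by
    intro i i' h
    have key : ∀ (j : Fin r) (_ : κ₀ i' = j) (A₁ : Matrix (Fin (d j)) (Fin (d i)) k)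
        (B₁ : Matrix (Fin (d i)) (Fin (d j)) k), B₁ * A₁ = 1 →
        (∀ s : S, A₁ * D.V i s = D.V j (MulAut.conjNormal t s) * A₁) → i = i' := by
      intro j hj A₁ B₁ h1 h2
      subst hj
      exact twistX_inj D t i i' (κ₀ i') (hpos i) A₁ B₁ (A i') (B i') h1 (hAB i') (hBA i') h2 (hA i')
    exact key (κ₀ i) h.symm (A i) (B i) (hBA i) (hA i)
  have hd : ∀ i, d (κ₀ i) = d i := by
    intro i
    have h := Matrix.square_of_invertible (A i) (B i) (hAB i) (hBA i)
    rw [Fintype.card_fin, Fintype.card_fin] at h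
    exact h
  let κ : Equiv.Perm (Fin r) := Equiv.ofBijective κ₀ (Finite.injective_iff_bijective.1 hinj)
  obtain ⟨M, h1, h2, h3⟩ := twistX_mat D t κ A B hAB hBA hA
  exact ⟨M, κ, h1, h2, h3, hd⟩
-- END twistX

-- BEGIN scaleX
private theorem scaleX_col {ι : Type} [Fintype ι] [DecidableEq ι] (M : Matrix ι ι k)
    (hu : IsUnit M) (j' : ι) : ∃ j, M j j' ≠ 0 := by
  by_contra h
  push Not at h
  obtain ⟨U, hU⟩ := hu
  have h1 : (((U⁻¹ : (Matrix ι ι k)ˣ) : Matrix ι ι k) * M) j' j' = 0 := by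
    rw [Matrix.mul_apply]
    exact Finset.sum_eq_zero fun a _ => by rw [h a, mul_zero]
  rw [← hU, Units.inv_mul, Matrix.one_apply_eq] at h1
  exact one_ne_zero h1

private theorem scaleX_pow [S.Normal] (D : IrrData k S r d) (t : L)
    (M : Matrix (Σ i, Fin (d i)) (Σ i, Fin (d i)) k)
    (hM : ∀ s : S, M * Wrc.W D s = Wrc.W D (MulAut.conjNormal t s) * M) (n : ℕ) :
    ∀ s : S, M ^ n * Wrc.W D s = Wrc.W D (MulAut.conjNormal (t ^ n) s) * M ^ n := by
  induction n with
  | zero =>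
    intro s
    rw [pow_zero, pow_zero, one_mul, mul_one, map_one, MulAut.one_apply]
  | succ n ih =>
    intro s
    rw [pow_succ, mul_assoc, hM s, ← mul_assoc, ih, mul_assoc, pow_succ, map_mul,
      MulAut.mul_apply]

/-- PROOF. `T = ⟨t ^ m, _⟩ : S`. `M ^ m * W s = W (conjNormal (t ^ m) s) * M ^ m = W (T * s * T⁻¹) * M ^ m` (induction), so `C = W T⁻¹ * M ^ m` commutes with all `W s`: `schurX` gives `c`, `C` is invertible, so `c i ≠ 0`. `M * C = C * M` (`M * W T⁻¹ = W (conjNormal t T⁻¹) * M = W T⁻¹ * M`). So `c (κ i) = c i`: take `j'` in the block `i` (`0 < d i`);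
the column `j'` of `M` is not `0`, `M j j' ≠ 0` forces `j.1 = κ i`, compare the entries `(j, j')` of `M * C = C * M`. Let `f : k → k` with `f x ^ m = x` (`IsAlgClosed.exists_pow_nat_eq`, choice), `b i = f (c i)⁻¹`, `B = Matrix.diagonal fun j => b j.1`. `b (κ i) = b i`, so `M * B = B * M`, `B` commutes with the block diagonal `W s`, and `M' = M * B`:
`M' ^ m = M ^ m * B ^ m = W T * C * B ^ m = W T` (`Commute.mul_pow`). -/
theorem scaleX [IsAlgClosed k] [S.Normal] (D : IrrData k S r d) (hpos : ∀ i, 0 < d i) (t : L) (m : ℕ) (hm : 0 < m)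
    (htm : t ^ m ∈ S) (M : Matrix (Σ i, Fin (d i)) (Σ i, Fin (d i)) k) (κ : Equiv.Perm (Fin r)) (hu : IsUnit M)
    (hM : ∀ s : S, M * Wrc.W D s = Wrc.W D (MulAut.conjNormal t s) * M)
    (hκ : ∀ j j', j.1 ≠ κ j'.1 → M j j' = 0) :
    ∃ M' : Matrix (Σ i, Fin (d i)) (Σ i, Fin (d i)) k,
      (∀ s : S, M' * Wrc.W D s = Wrc.W D (MulAut.conjNormal t s) * M') ∧
      (∀ j j', j.1 ≠ κ j'.1 → M' j j' = 0) ∧ M' ^ m = Wrc.W D ⟨t ^ m, htm⟩ := by
  obtain ⟨T, hT⟩ : ∃ T : S, T = ⟨t ^ m, htm⟩ := ⟨_, rfl⟩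
  rw [← hT]
  have hTt : (T : L) = t ^ m := by rw [hT]
  have hcm : ∀ s : S, MulAut.conjNormal (t ^ m) s = T * s * T⁻¹ := by
    intro s
    apply Subtype.ext
    rw [MulAut.conjNormal_apply]
    show t ^ m * (s : L) * (t ^ m)⁻¹ = (T : L) * (s : L) * (T : L)⁻¹
    rw [hTt]
  have hct : MulAut.conjNormal t T⁻¹ = T⁻¹ := by
    apply Subtype.ext
    rw [MulAut.conjNormal_apply]
    show t * (T : L)⁻¹ * t⁻¹ = (T : L)⁻¹
    rw [hTt]
    have h1 : Commute t (t ^ m)⁻¹ := ((Commute.refl t).pow_right m).inv_right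
    rw [h1.eq, mul_assoc, mul_inv_cancel, mul_one]
  have hpow := scaleX_pow D t M hM m
  obtain ⟨C, hC⟩ : ∃ C : Matrix (Σ i, Fin (d i)) (Σ i, Fin (d i)) k,
      C = Wrc.W D T⁻¹ * M ^ m := ⟨_, rfl⟩
  have hTT : Wrc.W D T * Wrc.W D T⁻¹ = 1 := by rw [← map_mul, mul_inv_cancel, map_one]
  have hTT' : Wrc.W D T⁻¹ * Wrc.W D T = 1 := by rw [← map_mul, inv_mul_cancel, map_one]
  have hMm : M ^ m = Wrc.W D T * C := by rw [hC, ← mul_assoc, hTT, one_mul]
  have hcomm : ∀ s, C * Wrc.W D s = Wrc.W D s * C := by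
    intro s
    have h1 : T⁻¹ * (T * s * T⁻¹) = s * T⁻¹ := by group
    rw [hC, mul_assoc, hpow s, hcm s, ← mul_assoc (Wrc.W D T⁻¹), ← map_mul, h1, map_mul, mul_assoc]
  obtain ⟨c, hc⟩ := schurX D C hcomm
  have hCd : C = Matrix.diagonal fun j : Σ i, Fin (d i) => c j.1 := by
    ext j j'
    rw [hc j j', Matrix.diagonal_apply]
  have hCu : IsUnit C := by
    rw [hC]
    exact (IsUnit.of_mul_eq_one _ hTT').mul (hu.pow m)
  have hc0 : ∀ i, c i ≠ 0 := by
    intro i h0
    obtain ⟨j, hj⟩ := scaleX_col C hCu ⟨i, ⟨0, hpos i⟩⟩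
    rw [hc] at hj
    split_ifs at hj with h1
    · rw [h1] at hj
      exact hj h0
    · exact hj rfl
  have hMC : M * C = C * M := by
    rw [hC, ← mul_assoc, hM, hct, mul_assoc, mul_assoc, ← pow_succ, ← pow_succ']
  have hcκ : ∀ i, c (κ i) = c i := by
    intro i
    obtain ⟨j, hj⟩ := scaleX_col M hu ⟨i, ⟨0, hpos i⟩⟩
    have h1 : j.1 = κ i := by
      by_contra h
      exact hj (hκ j ⟨i, ⟨0, hpos i⟩⟩ h)
    have h2 := congrFun (congrFun hMC j) ⟨i, ⟨0, hpos i⟩⟩
    rw [hCd, Matrix.mul_diagonal, Matrix.diagonal_mul, mul_comm] at h2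
    have h3 := mul_right_cancel₀ hj h2
    rw [← h1]
    exact h3.symm
  choose f hf using fun x : k => IsAlgClosed.exists_pow_nat_eq x hm
  obtain ⟨b, hb⟩ : ∃ b : Fin r → k, b = fun i => f (c i)⁻¹ := ⟨_, rfl⟩
  have hbm : ∀ i, b i ^ m = (c i)⁻¹ := fun i => by
    rw [hb]
    exact hf _
  have hbκ : ∀ i, b (κ i) = b i := fun i => by
    rw [hb]
    show f (c (κ i))⁻¹ = f (c i)⁻¹
    rw [hcκ]
  obtain ⟨B, hB⟩ : ∃ B : Matrix (Σ i, Fin (d i)) (Σ i, Fin (d i)) k,
      B = Matrix.diagonal fun j : Σ i, Fin (d i) => b j.1 := ⟨_, rfl⟩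
  have hMB : M * B = B * M := by
    ext j j'
    rw [hB, Matrix.mul_diagonal, Matrix.diagonal_mul]
    by_cases h : j.1 = κ j'.1
    · rw [h, hbκ, mul_comm]
    · rw [hκ j j' h, zero_mul, mul_zero]
  have hBW : ∀ s, B * Wrc.W D s = Wrc.W D s * B := by
    intro s
    ext j j'
    rw [hB, Matrix.mul_diagonal, Matrix.diagonal_mul]
    by_cases h : j.1 = j'.1
    · rw [h, mul_comm]
    · rw [W_block D s j j' h, zero_mul, mul_zero]
  refine ⟨M * B, ?_, ?_, ?_⟩
  · intro s
    rw [mul_assoc, hBW, ← mul_assoc, hM, mul_assoc]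
  · intro j j' h
    rw [hB, Matrix.mul_diagonal, hκ j j' h, zero_mul]
  · have h1 : Commute M B := hMB
    rw [h1.mul_pow, hMm, mul_assoc, hB, Matrix.diagonal_pow, hCd, Matrix.diagonal_mul_diagonal]
    have h2 : (Matrix.diagonal fun j : Σ i, Fin (d i) =>
        c j.1 * ((fun j : Σ i, Fin (d i) => b j.1) ^ m) j) = 1 := by
      rw [← Matrix.diagonal_one]
      congr 1
      funext j
      show c j.1 * b j.1 ^ m = 1
      rw [hbm, mul_inv_cancel₀ (hc0 _)]
    rw [h2, mul_one]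
-- END scaleX

-- BEGIN extX
private theorem extX_comm {L U : Type} [Group L] [Group U] {S : Subgroup L} [S.Normal] (V : S →* U) (u : U) (t : L)
    (hM : ∀ s : S, u * V s = V (MulAut.conjNormal t s) * u) (z : ℤ) (s : S) :
    u ^ z * V s = V (MulAut.conjNormal (t ^ z) s) * u ^ z := by
  have hn : ∀ (n : ℕ) (s : S), u ^ n * V s = V (MulAut.conjNormal (t ^ n) s) * u ^ n := by
    intro n
    induction n with
    | zero =>
      intro s
      rw [pow_zero, pow_zero, map_one, MulAut.one_apply, one_mul, mul_one]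
    | succ n ih =>
      intro s
      rw [pow_succ, pow_succ, mul_assoc, hM, ← mul_assoc, ih, map_mul, MulAut.mul_apply, mul_assoc]
  rcases Int.eq_nat_or_neg z with ⟨n, rfl | rfl⟩
  · rw [zpow_natCast, zpow_natCast]
    exact hn n s
  · have h1 := hn n (MulAut.conjNormal (t ^ (-(n : ℤ))) s)
    have h2 : MulAut.conjNormal (t ^ n) (MulAut.conjNormal (t ^ (-(n : ℤ))) s) = s := by
      rw [← MulAut.mul_apply, ← map_mul, zpow_neg, zpow_natCast, mul_inv_cancel, map_one, MulAut.one_apply]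
    rw [h2] at h1
    have h3 : u ^ (-(n : ℤ)) = (u ^ n)⁻¹ := by rw [zpow_neg, zpow_natCast]
    rw [h3, inv_mul_eq_iff_eq_mul, ← mul_assoc, h1, mul_assoc, mul_inv_cancel, mul_one]

private theorem extX_grp {L U : Type} [Group L] [Group U] {S : Subgroup L} [S.Normal] (V : S →* U) (u : U) (t : L)
    (m : ℕ) (htm : t ^ m ∈ S) (hmin : ∀ z : ℤ, t ^ z ∈ S → (m : ℤ) ∣ z)
    (hgen : ∀ l : L, ∃ (s : S) (z : ℤ), l = s * t ^ z)
    (hM : ∀ s : S, u * V s = V (MulAut.conjNormal t s) * u) (hMm : u ^ m = V ⟨t ^ m, htm⟩) :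
    ∃ R : L →* U, (∀ s : S, R s = V s) ∧ R t = u := by
  have hS : ∀ (z : ℤ) (x : S), t ^ z = (x : L) → u ^ z = V x := by
    intro z x hx
    obtain ⟨q, hq⟩ := hmin z (by rw [hx]; exact x.2)
    have h1 : x = (⟨t ^ m, htm⟩ : S) ^ q := by
      refine Subtype.ext ?_
      rw [Subgroup.coe_zpow, ← hx, hq, zpow_mul, zpow_natCast]
    rw [h1, map_zpow, ← hMm, hq, zpow_mul, zpow_natCast]
  have hwd : ∀ (s s' : S) (z z' : ℤ), (s : L) * t ^ z = s' * t ^ z' → V s * u ^ z = V s' * u ^ z' := by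
    intro s s' z z' h
    have h1 : t ^ (z - z') = ((s⁻¹ * s' : S) : L) := by
      rw [Subgroup.coe_mul, Subgroup.coe_inv, zpow_sub, eq_inv_mul_iff_mul_eq, ← mul_assoc, h, mul_assoc,
        mul_inv_cancel, mul_one]
    have h2 := hS (z - z') _ h1
    have h3 : u ^ z = V (s⁻¹ * s') * u ^ z' := by
      rw [← h2, ← zpow_add, sub_add_cancel]
    rw [h3, ← mul_assoc, ← map_mul, mul_inv_cancel_left]
  choose s z h using hgen
  have key : ∀ (a : S) (n : ℤ), V (s ((a : L) * t ^ n)) * u ^ z ((a : L) * t ^ n) = V a * u ^ n := by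
    intro a n
    exact hwd _ _ _ _ (h ((a : L) * t ^ n)).symm
  have keyl : ∀ (l : L) (a : S) (n : ℤ), l = (a : L) * t ^ n → V (s l) * u ^ z l = V a * u ^ n := by
    intro l a n hl
    subst hl
    exact key a n
  refine ⟨⟨⟨fun l => V (s l) * u ^ z l, ?_⟩, ?_⟩, ?_, ?_⟩
  · have h1 := keyl 1 1 0 (by rw [zpow_zero, mul_one]; rfl)
    rw [map_one, zpow_zero, mul_one] at h1
    exact h1
  · intro l l'
    show V (s (l * l')) * u ^ z (l * l') = V (s l) * u ^ z l * (V (s l') * u ^ z l')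
    have h1 : l * l' = ((s l * MulAut.conjNormal (t ^ z l) (s l') : S) : L) * t ^ (z l + z l') := by
      rw [Subgroup.coe_mul, MulAut.conjNormal_apply, zpow_add]
      nth_rewrite 1 [h l, h l']
      group
    rw [keyl _ _ _ h1, map_mul, zpow_add, mul_assoc, mul_assoc, ← mul_assoc (V (MulAut.conjNormal _ _)),
      ← extX_comm V u t hM, mul_assoc]
  · intro x
    have h1 := keyl (x : L) x 0 (by rw [zpow_zero, mul_one])
    rw [zpow_zero, mul_one] at h1
    exact h1
  · have h1 := keyl t 1 1 (by rw [zpow_one]; exact (one_mul t).symm)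
    rw [map_one, zpow_one, one_mul] at h1
    exact h1

/-- PROOF. `M` is a unit (`M ^ m = V _` is one, `0 < m`); work with `u : (Matrix ι ι k)ˣ`. Well defined: if `s * t ^ z = s' * t ^ z'` then `t ^ (z - z') = s⁻¹ * s' ∈ S`, so `z - z' = m * q`, `u ^ (m * q) = V ⟨t ^ m, _⟩ ^ q = V ⟨t ^ (z - z'), _⟩` (`zpow_mul`), so `V s * u ^ z = V s' * u ^ z'`. Choose `s l`, `z l` with `l = s l * t ^ z l` by `hgen`, `R l = V (s l) * u ^ z l`.
Multiplicative: `s * t ^ z * (s' * t ^ z') = s * (t ^ z * s' * t ^ (-z)) * t ^ (z + z')` and `u ^ z * V s' = V (conjNormal (t ^ z) s') * u ^ z` (induction on `z`, from `hM`). -/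
theorem extX [S.Normal] {ι : Type} [Fintype ι] [DecidableEq ι] (V : S →* Matrix ι ι k) (M : Matrix ι ι k) (t : L) (m : ℕ)
    (hm : 0 < m) (htm : t ^ m ∈ S) (hmin : ∀ z : ℤ, t ^ z ∈ S → (m : ℤ) ∣ z)
    (hgen : ∀ l : L, ∃ (s : S) (z : ℤ), l = s * t ^ z)
    (hM : ∀ s : S, M * V s = V (MulAut.conjNormal t s) * M) (hMm : M ^ m = V ⟨t ^ m, htm⟩) :
    ∃ R : L →* Matrix ι ι k, (∀ s : S, R s = V s) ∧ R t = M := by
  have hV : ∀ s : S, ((V.toHomUnits s : (Matrix ι ι k)ˣ) : Matrix ι ι k) = V s := fun s => rfl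
  have hu : IsUnit M := by
    rw [← isUnit_pow_iff hm.ne', hMm, ← hV]
    exact Units.isUnit _
  obtain ⟨u, rfl⟩ := hu
  obtain ⟨R, h1, h2⟩ := extX_grp V.toHomUnits u t m htm hmin hgen
    (fun s => Units.ext (by
      rw [Units.val_mul, Units.val_mul, hV, hV]
      exact hM s))
    (Units.ext (by
      rw [Units.val_pow_eq_pow_val, hV]
      exact hMm))
  refine ⟨(Units.coeHom _).comp R, fun s => ?_, ?_⟩
  · show ((R s : (Matrix ι ι k)ˣ) : Matrix ι ι k) = V s
    rw [h1]
    rfl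
  · show ((R t : (Matrix ι ι k)ˣ) : Matrix ι ι k) = u
    rw [h2]
-- END extX

-- BEGIN tauX
private theorem tauX_mul {k L : Type} [Field k] [Group L] {r : ℕ} {d : Fin r → ℕ}
    (R : L →* Matrix (Σ i, Fin (d i)) (Σ i, Fin (d i)) k) (l l' : L) (σ σ' : Equiv.Perm (Fin r))
    (h : ∀ j j', j.1 ≠ σ j'.1 → R l j j' = 0) (h' : ∀ j j', j.1 ≠ σ' j'.1 → R l' j j' = 0) :
    ∀ j j', j.1 ≠ (σ * σ') j'.1 → R (l * l') j j' = 0 := by
  intro j j' hj
  rw [map_mul, Matrix.mul_apply]
  refine Finset.sum_eq_zero fun c _ => ?_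
  by_cases hc : c.1 = σ' j'.1
  · rw [h j c (by rw [hc]; exact hj), zero_mul]
  · rw [h' c j' hc, mul_zero]

private theorem tauX_uniq {k L : Type} [Field k] [Group L] {r : ℕ} {d : Fin r → ℕ}
    (hpos : ∀ i, 0 < d i) (R : L →* Matrix (Σ i, Fin (d i)) (Σ i, Fin (d i)) k) (l : L)
    (σ σ' : Equiv.Perm (Fin r)) (h : ∀ j j', j.1 ≠ σ j'.1 → R l j j' = 0)
    (h' : ∀ j j', j.1 ≠ σ' j'.1 → R l j j' = 0) : σ = σ' := by
  refine Equiv.ext fun i => ?_
  obtain ⟨j, hj⟩ : ∃ j : Σ i, Fin (d i), j.1 = i := ⟨⟨i, ⟨0, hpos i⟩⟩, rfl⟩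
  have h1 : ∑ c, R l⁻¹ j c * R l c j = 1 := by
    have h2 : (R l⁻¹ * R l) j j = 1 := by
      rw [← map_mul, inv_mul_cancel, map_one, Matrix.one_apply_eq]
    rwa [Matrix.mul_apply] at h2
  by_contra hne
  apply one_ne_zero (α := k)
  rw [← h1]
  refine Finset.sum_eq_zero fun c _ => ?_
  by_cases hc : c.1 = σ j.1
  · rw [h' c j (by rw [hc, hj]; exact hne), mul_zero]
  · rw [h c j hc, mul_zero]

private theorem tauX_pow {k L : Type} [Field k] [Group L] {r : ℕ} {d : Fin r → ℕ}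
    (R : L →* Matrix (Σ i, Fin (d i)) (Σ i, Fin (d i)) k) (t : L) (κ : Equiv.Perm (Fin r))
    (hd : ∀ i, d (κ i) = d i) (hκ : ∀ j j', j.1 ≠ κ j'.1 → R t j j' = 0) (n : ℕ) :
    (∀ j j', j.1 ≠ (κ ^ n) j'.1 → R (t ^ n) j j' = 0) ∧ ∀ i, d ((κ ^ n) i) = d i := by
  induction n with
  | zero =>
    refine ⟨fun j j' hj => ?_, fun i => rfl⟩
    rw [pow_zero, map_one]
    refine Matrix.one_apply_ne fun h => hj ?_
    rw [h, pow_zero, Equiv.Perm.one_apply]
  | succ n ih =>
    rw [pow_succ, pow_succ]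
    refine ⟨tauX_mul R _ _ _ _ ih.1 hκ, fun i => ?_⟩
    rw [Equiv.Perm.mul_apply, ih.2, hd]

private theorem tauX_core {k L : Type} [Field k] [Group L] [Finite L] {S : Subgroup L} {r : ℕ}
    {d : Fin r → ℕ} (hpos : ∀ i, 0 < d i) (t : L) (κ : Equiv.Perm (Fin r))
    (hd : ∀ i, d (κ i) = d i) (hgen : ∀ l : L, ∃ (s : S) (z : ℤ), l = s * t ^ z)
    (R : L →* Matrix (Σ i, Fin (d i)) (Σ i, Fin (d i)) k)
    (hR : ∀ s : S, ∀ j j' : Σ i, Fin (d i), j.1 ≠ j'.1 → R s j j' = 0)
    (hκ : ∀ j j', j.1 ≠ κ j'.1 → R t j j' = 0) :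
    ∃ τ : L →* Equiv.Perm (Fin r), (∀ l j j', j.1 ≠ τ l j'.1 → R l j j' = 0) ∧ (∀ s ∈ S, τ s = 1) ∧
      ∀ l i, d (τ l i) = d i := by
  have hex : ∀ l : L, ∃ σ : Equiv.Perm (Fin r), (∀ j j', j.1 ≠ σ j'.1 → R l j j' = 0) ∧
      ∀ i, d (σ i) = d i := by
    intro l
    obtain ⟨s, z, hl⟩ := hgen l
    obtain ⟨n, hn⟩ : ∃ n : ℕ, t ^ n = t ^ z := by
      have h1 : t ^ z ∈ Submonoid.powers t := mem_powers_iff_mem_zpowers.2 ⟨z, rfl⟩
      obtain ⟨n, hn⟩ := h1
      exact ⟨n, hn⟩
    have hp := tauX_pow R t κ hd hκ n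
    refine ⟨1 * κ ^ n, ?_, fun i => ?_⟩
    · rw [hl, ← hn]
      exact tauX_mul R _ _ _ _ (fun j j' hj => hR s j j' hj) hp.1
    · rw [one_mul, hp.2]
  choose f hf using hex
  have hun : ∀ (l : L) (σ : Equiv.Perm (Fin r)), (∀ j j', j.1 ≠ σ j'.1 → R l j j' = 0) → f l = σ :=
    fun l σ h => tauX_uniq hpos R l (f l) σ (hf l).1 h
  refine ⟨{ toFun := f
            map_one' := hun 1 1 fun j j' hj => ?_
            map_mul' := fun l l' => hun _ _ (tauX_mul R l l' _ _ (hf l).1 (hf l').1) },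
    fun l => (hf l).1, fun s hs => hun s 1 fun j j' hj => hR ⟨s, hs⟩ j j' hj, fun l => (hf l).2⟩
  exact hR 1 j j' hj

/-- PROOF. Say `P l κ'` if `∀ j j', j.1 ≠ κ' j'.1 → R l j j' = 0` and `∀ i, d (κ' i) = d i`. `P s 1` for `s ∈ S` (`W_block`), `P t κ`, `P l κ' → P l' κ'' → P (l * l') (κ' * κ'')` (`Matrix.mul_apply`). Every `l` is `s * t ^ z` with `z` a natural number (`L` is finite: replace `z` by `z + q * orderOf t`), so `P l κ'` for some `κ'`. Unique: `R l` is invertible
(`R l * R l⁻¹ = 1`), so each of its columns has a nonzero entry, and each block has a column (`0 < d i`). `τ l` = the unique one, multiplicative by uniqueness. -/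
theorem tauX [Finite L] (D : IrrData k S r d) (hpos : ∀ i, 0 < d i) (t : L) (κ : Equiv.Perm (Fin r))
    (hd : ∀ i, d (κ i) = d i) (hgen : ∀ l : L, ∃ (s : S) (z : ℤ), l = s * t ^ z)
    (R : L →* Matrix (Σ i, Fin (d i)) (Σ i, Fin (d i)) k) (hR : ∀ s : S, R s = Wrc.W D s)
    (hκ : ∀ j j', j.1 ≠ κ j'.1 → R t j j' = 0) :
    ∃ τ : L →* Equiv.Perm (Fin r), (∀ l j j', j.1 ≠ τ l j'.1 → R l j j' = 0) ∧ (∀ s ∈ S, τ s = 1) ∧
      ∀ l i, d (τ l i) = d i := by
  refine tauX_core hpos t κ hd hgen R (fun s j j' hj => ?_) hκ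
  rw [hR s]
  exact W_block D s j j' hj
-- END tauX

end

-- BEGIN xdata
/-- PROOF. `irr_pos` gives `D : IrrData k S r d`; `m` = the order of `t` in `L ⧸ S` (`orderOf_pos`, `orderOf_dvd_iff_zpow_eq_one`, `QuotientGroup.eq_one_iff`), so `t ^ m ∈ S`, and `t ^ z ∈ S → m ∣ z`. `twistX`, `scaleX`, `extX` (for `V = Wrc.W D`), `tauX`. `R.comp S.subtype = Wrc.W D`, so `he` is `WL_e` and `unit` is `unit_exists` (Wrc/Rp.lean; `WL D` is the lift of `Wrc.W D`),
`e = D.e`, `sum = D.sum`. -/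
theorem xdata (k L : Type) [Field k] [IsAlgClosed k] [Group L] [Finite L] (S : Subgroup L) [S.Normal]
    (hc : ∃ t : L, ∀ l : L, ∃ (s : S) (z : ℤ), l = s * t ^ z) :
    ∃ (r : ℕ) (d : Fin r → ℕ), Nonempty (XData k L S r d) := by
  obtain ⟨t, hgen⟩ := hc
  obtain ⟨r, d, hpos, ⟨D⟩⟩ := irr_pos k S
  obtain ⟨m, hmdef⟩ : ∃ m, m = orderOf (QuotientGroup.mk t : L ⧸ S) := ⟨_, rfl⟩
  have hm : 0 < m := by rw [hmdef]; exact orderOf_pos _
  have hmem : ∀ z : ℤ, t ^ z ∈ S ↔ (m : ℤ) ∣ z := by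
    intro z
    rw [hmdef, orderOf_dvd_iff_zpow_eq_one, ← QuotientGroup.mk_zpow, QuotientGroup.eq_one_iff]
  have htm : t ^ m ∈ S := by
    have h := (hmem m).2 (dvd_refl _)
    rwa [zpow_natCast] at h
  obtain ⟨M, κ, hu, hM, hκ, hd⟩ := twistX D hpos t
  obtain ⟨M', hM', hκ', hMm⟩ := scaleX D hpos t m hm htm M κ hu hM hκ
  obtain ⟨R, hR, hRt⟩ := extX (Wrc.W D) M' t m hm htm (fun z hz => (hmem z).1 hz) hgen hM' hMm
  obtain ⟨τ, hτ, hτS, hτd⟩ := tauX D hpos t κ hd hgen R hR (by rw [hRt]; exact hκ')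
  have hW : R.comp S.subtype = Wrc.W D := MonoidHom.ext fun s => hR s
  refine ⟨r, d, ⟨⟨R, τ, hτ, hτS, hτd, D.e, ?_, ?_, D.sum⟩⟩⟩
  · intro i j j'
    rw [hW]
    exact WL_e D i j j'
  · intro j j' hj
    rw [hW]
    exact unit_exists D j j' hj
-- END xdata

end Pool.Agent.Wex
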