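import Pool.Agent.Wex.Rep
import Pool.Agent.Wex.Ext

/-! Theorem G for every field, and normal powers of simple groups with cyclic outer automorphism group. -/

set_option autoImplicit false

namespace Pool.Agent.Wex

open MonoidAlgebra Pool.Agent.Wil Pool.Agent.Wnx Pool.Agent.Wpp Pool.Agent.Wrc

theorem thmG (p : ℕ) [Fact p.Prime] (k L G Ω : Type) [Field k] [CharP k p] [Group L] [Finite L] (S : Subgroup L) [S.Normal]
    (hc : ∃ t : L, ∀ l : L, ∃ (s : S) (z : ℤ), l = s * t ^ z) [Group G] [Finite G] [Finite Ω] (N : Subgroup G) [N.Normal]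
    (C : Co L G Ω S N) (hQ : ∀ Q : Subgroup (G ⧸ N), pPrimePart p (Nat.card Q) ≤ ssDim k Q) :
    pPrimePart p (Nat.card (G ⧸ N)) * ssDim k S ^ Nat.card Ω ≤ ssDim k G := by
  classical
  have : Fintype Ω := Fintype.ofFinite Ω
  have hK : CharP (AlgebraicClosure k) p := charP_of_injective_algebraMap (algebraMap k (AlgebraicClosure k)).injective p
  obtain ⟨r, d, ⟨D⟩⟩ := xdata (AlgebraicClosure k) L S hc
  have h := boundX p D C (fun Q => by rw [← fld_eq p k (AlgebraicClosure k)]; exact hQ Q)
  rw [fld_eq p k (AlgebraicClosure k) S, fld_eq p k (AlgebraicClosure k) G, Nat.card_eq_fintype_card (α := Ω)]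
  exact h

-- BEGIN simpleX
private theorem simpleX_fin {T : Type} [Group T] [Finite T] : Finite (MulAut T) :=
  Finite.of_injective (fun a : MulAut T => (a : T → T)) (fun _ _ h => MulEquiv.ext fun x => congrFun h x)

private theorem simpleX_normal {T : Type} [Group T] : ((MulAut.conj : T →* MulAut T).range).Normal := by
  refine ⟨?_⟩
  rintro _ ⟨t, rfl⟩ a
  refine ⟨a t, MulEquiv.ext fun x => ?_⟩
  simp [MulAut.conj_apply, MulAut.mul_apply]

private theorem simpleX_inj {T : Type} [Group T] [IsSimpleGroup T] (hT : ∃ a b : T, a * b ≠ b * a) :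
    Function.Injective (MulAut.conj : T →* MulAut T) := by
  rw [← MonoidHom.ker_eq_bot_iff]
  rcases Subgroup.Normal.eq_bot_or_eq_top (H := (MulAut.conj : T →* MulAut T).ker) inferInstance with h | h
  · exact h
  · exfalso
    obtain ⟨a, b, hab⟩ := hT
    have ha : a ∈ (MulAut.conj : T →* MulAut T).ker := by rw [h]; exact Subgroup.mem_top _
    have h1 : MulAut.conj a = 1 := (MonoidHom.mem_ker).1 ha
    have h2 : MulAut.conj a b = b := by rw [h1]; rfl
    rw [MulAut.conj_apply] at h2
    exact hab (mul_inv_eq_iff_eq_mul.1 h2)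

/-- PROOF. `wr_data` (Wpp/Wr.lean) gives `π`, `σ` with values in `MulAut T`; `S = (MulAut.conj : T →* MulAut T).range` is normal in `MulAut T` (`a * conj t * a⁻¹ = conj (a t)`), `MulAut.conj` is injective on `T` (the center of a simple non commutative group is trivial: `hT`, `Subgroup.Normal.eq_bot_or_eq_top`), so `T ≃* S` (`MonoidHom.ofInjective`) and `e` gives
`N ≃* (Fin m → S)` (`MulEquiv.piCongrRight`): `C : Co (MulAut T) G (Fin m) S N`. `T` is finite (`m ≠ 0`, as in `ext_step`), so `MulAut T` is finite. `thmG`, `ssDim_congr`. -/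
theorem simpleX (p : ℕ) [Fact p.Prime] (k T G : Type) [Field k] [CharP k p] [Group T] [IsSimpleGroup T]
    (hT : ∃ a b : T, a * b ≠ b * a)
    (hc : ∃ t : MulAut T, ∀ a : MulAut T, ∃ (g : T) (z : ℤ), a = MulAut.conj g * t ^ z)
    [Group G] [Finite G] (N : Subgroup G) [N.Normal] (m : ℕ) (hm : 0 < m) (e : N ≃* (Fin m → T))
    (hQ : ∀ Q : Subgroup (G ⧸ N), pPrimePart p (Nat.card Q) ≤ ssDim k Q) :
    pPrimePart p (Nat.card (G ⧸ N)) * ssDim k T ^ m ≤ ssDim k G := by
  classical
  have hfin : Finite T := by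
    have h1 : Finite (Fin m → T) := Finite.of_equiv N e.toEquiv
    exact Finite.of_surjective (fun t : Fin m → T => t ⟨0, hm⟩) (fun a => ⟨fun _ => a, rfl⟩)
  have hfinA : Finite (MulAut T) := simpleX_fin
  obtain ⟨π, σ, hσ, hN⟩ := wr_data hT N e
  let S : Subgroup (MulAut T) := (MulAut.conj : T →* MulAut T).range
  have hS : S.Normal := simpleX_normal
  let φ : T ≃* S := MonoidHom.ofInjective (simpleX_inj hT)
  have hφ : ∀ a : T, ((φ a : S) : MulAut T) = MulAut.conj a := fun a => rfl
  let C : Co (MulAut T) G (Fin m) S N :=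
    { π := π
      σ := σ
      hσ := hσ
      e := e.trans (MulEquiv.piCongrRight fun _ => φ)
      hπ := fun x => (hN x).1
      hN := fun x j => (hN x).2 j }
  have hc' : ∃ t : MulAut T, ∀ a : MulAut T, ∃ (s : S) (z : ℤ), a = s * t ^ z := by
    obtain ⟨t, ht⟩ := hc
    refine ⟨t, fun a => ?_⟩
    obtain ⟨g, z, h⟩ := ht a
    exact ⟨φ g, z, h⟩
  have h := thmG p k (MulAut T) G (Fin m) S hc' N C hQ
  rw [Nat.card_eq_fintype_card (α := Fin m), Fintype.card_fin, ← ssDim_congr (k := k) φ] at h
  exact h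
-- END simpleX

theorem leastX (p : ℕ) [Fact p.Prime] (k T G : Type) [Field k] [CharP k p] [Group T] [IsSimpleGroup T]
    (hT : ∃ a b : T, a * b ≠ b * a)
    (hc : ∃ t : MulAut T, ∀ a : MulAut T, ∃ (g : T) (z : ℤ), a = MulAut.conj g * t ^ z)
    [Group G] [Finite G] (N : Subgroup G) [N.Normal] (m : ℕ) (hm : 0 < m) (e : N ≃* (Fin m → T))
    (hs : ∀ (Q : Type) [Group Q] [Finite Q], Nat.card Q < Nat.card G → pPrimePart p (Nat.card Q) ≤ ssDim k Q) :
    pPrimePart p (Nat.card G) ≤ ssDim k G ∨ Nonempty (G ≃* T) := by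
  classical
  have hfin : Finite T := by
    have h1 : Finite (Fin m → T) := Finite.of_equiv N e.toEquiv
    exact Finite.of_surjective (fun t : Fin m → T => t ⟨0, hm⟩) (fun a => ⟨fun _ => a, rfl⟩)
  have h1T : 1 < Nat.card T := Finite.one_lt_card
  have hN : Nat.card N = Nat.card T ^ m := by
    rw [Nat.card_congr e.toEquiv, Nat.card_pi, Finset.prod_const, Finset.card_univ, Fintype.card_fin]
  have hG : Nat.card G = Nat.card (G ⧸ N) * Nat.card T ^ m := by
    rw [← hN]
    exact Subgroup.card_eq_card_quotient_mul_card_subgroup N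
  have hTm : Nat.card T ≤ Nat.card T ^ m := Nat.le_self_pow hm.ne' _
  have hq : 0 < Nat.card (G ⧸ N) := Nat.card_pos
  rcases Nat.lt_or_ge (Nat.card T) (Nat.card G) with h | h
  · left
    have hQ : ∀ Q : Subgroup (G ⧸ N), pPrimePart p (Nat.card Q) ≤ ssDim k Q := by
      intro Q
      refine hs Q ?_
      have h2 : Nat.card Q ≤ Nat.card (G ⧸ N) := Subgroup.card_le_card_group _
      rw [hG]
      nlinarith
    have h3 := simpleX p k T G hT hc N m hm e hQ
    rw [hG, pPrimePart_mul, pp_pow]
    exact (Nat.mul_le_mul_left _ (Nat.pow_le_pow_left (hs T h) _)).trans h3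
  · right
    have h2 : Nat.card (G ⧸ N) * Nat.card T ^ m ≤ Nat.card T := by
      rw [← hG]
      exact h
    have h3 : Nat.card T ^ m ≤ Nat.card T := by
      calc Nat.card T ^ m ≤ Nat.card (G ⧸ N) * Nat.card T ^ m := Nat.le_mul_of_pos_left _ hq
        _ ≤ Nat.card T := h2
    have h4 : m = 1 := by
      by_contra h5
      have h6 : 2 ≤ m := by omega
      have h7 : Nat.card T ^ 2 ≤ Nat.card T ^ m := Nat.pow_le_pow_right (by omega) h6
      nlinarith
    subst h4
    have h5 : N = ⊤ := by
      apply Subgroup.eq_top_of_card_eq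
      apply le_antisymm (Subgroup.card_le_card_group _)
      rw [hN, pow_one]
      exact h
    subst h5
    exact ⟨(Subgroup.topEquiv.symm.trans e).trans
      { toFun := fun f => f 0
        invFun := fun a _ => a
        left_inv := fun f => by
          funext i
          rw [Subsingleton.elim i 0]
        right_inv := fun a => rfl
        map_mul' := fun _ _ => rfl }⟩

end Pool.Agent.Wex
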