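import Pool.Agent.Wrc.Sym
import Pool.Agent.Wpp.Wr

/-!
Willems' inequality and normal powers (MP_6335a4_al): definitions. `S` is a normal subgroup of `L`.
-/

set_option autoImplicit false

namespace Pool.Agent.Wex

open MonoidAlgebra Pool.Agent.Wil Pool.Agent.Wnx Pool.Agent.Wpp Pool.Agent.Wrc

/-- The sum of all simple modules of `S`, extended to `L`. -/
structure XData (k L : Type) [Field k] [Group L] (S : Subgroup L) (r : ℕ) (d : Fin r → ℕ) where
  W : L →* Matrix (Σ i, Fin (d i)) (Σ i, Fin (d i)) k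
  τ : L →* Equiv.Perm (Fin r)
  block : ∀ (l : L) (j j' : Σ i, Fin (d i)), j.1 ≠ τ l j'.1 → W l j j' = 0
  τS : ∀ s ∈ S, τ s = 1
  hd : ∀ (l : L) (i : Fin r), d (τ l i) = d i
  e : Fin r → MonoidAlgebra k S
  he : ∀ (i : Fin r) (j j' : Σ i, Fin (d i)),
    MonoidAlgebra.lift k (Matrix (Σ i, Fin (d i)) (Σ i, Fin (d i)) k) S (W.comp S.subtype) (e i) j j' =
      if j = j' ∧ j.1 = i then 1 else 0
  unit : ∀ j j' : Σ i, Fin (d i), j.1 = j'.1 → ∃ u : MonoidAlgebra k S, ∀ a b,
    MonoidAlgebra.lift k (Matrix (Σ i, Fin (d i)) (Σ i, Fin (d i)) k) S (W.comp S.subtype) u a b =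
      if a = j ∧ b = j' then 1 else 0
  sum : ∑ i, d i ^ 2 = ssDim k S

/-- A homomorphism of `G` to the wreath product of `L` and the symmetric group of `Ω`, which maps the normal subgroup `N` isomorphically
onto the functions from `Ω` to `S`. -/
structure Co (L G Ω : Type) [Group L] [Group G] (S : Subgroup L) (N : Subgroup G) where
  π : G →* Equiv.Perm Ω
  σ : G → Ω → L
  hσ : ∀ g h j, σ (g * h) j = σ g (π h j) * σ h j
  e : N ≃* (Ω → S)
  hπ : ∀ x : N, π (x : G) = 1
  hN : ∀ (x : N) (j : Ω), σ (x : G) j = (e x j : L)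

section
variable {k L G Ω : Type} [Field k] [Group L] [Group G] [Fintype Ω] {S : Subgroup L} {N : Subgroup G}
  {r : ℕ} {d : Fin r → ℕ}

theorem Co.σ_one (C : Co L G Ω S N) (j : Ω) : C.σ 1 j = 1 := by
  have h := C.hσ 1 1 j
  rw [one_mul, map_one, Equiv.Perm.one_apply] at h
  exact (mul_eq_left.1 h.symm)

/-- The action of `G` on the colourings `F : Ω → Fin r`. -/
def cact (D : XData k L S r d) (C : Co L G Ω S N) (g : G) (F : Ω → Fin r) : Ω → Fin r :=
  fun i => D.τ (C.σ g ((C.π g)⁻¹ i)) (F ((C.π g)⁻¹ i))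

theorem cact_apply (D : XData k L S r d) (C : Co L G Ω S N) (g : G) (F : Ω → Fin r) (j : Ω) :
    cact D C g F (C.π g j) = D.τ (C.σ g j) (F j) := by
  have h : (C.π g)⁻¹ (C.π g j) = j := Equiv.symm_apply_apply _ _
  rw [cact, h]

theorem cact_one (D : XData k L S r d) (C : Co L G Ω S N) (F : Ω → Fin r) : cact D C 1 F = F := by
  funext i
  have h := cact_apply D C 1 F i
  rw [map_one, Equiv.Perm.one_apply, C.σ_one, map_one, Equiv.Perm.one_apply] at h
  exact h

theorem cact_mul (D : XData k L S r d) (C : Co L G Ω S N) (g h : G) (F : Ω → Fin r) :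
    cact D C (g * h) F = cact D C g (cact D C h F) := by
  funext i
  obtain ⟨j, rfl⟩ := (C.π (g * h)).surjective i
  rw [cact_apply, map_mul, Equiv.Perm.mul_apply, cact_apply, cact_apply, C.hσ, map_mul, Equiv.Perm.mul_apply]

theorem cact_N (D : XData k L S r d) (C : Co L G Ω S N) (x : N) (F : Ω → Fin r) : cact D C (x : G) F = F := by
  funext i
  have h := cact_apply D C (x : G) F i
  rw [C.hπ, Equiv.Perm.one_apply, C.hN, D.τS _ (C.e x i).2, Equiv.Perm.one_apply] at h
  exact h

/-- The stabiliser of a colouring. -/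
def TF (D : XData k L S r d) (C : Co L G Ω S N) (F : Ω → Fin r) : Subgroup G where
  carrier := {g | cact D C g F = F}
  mul_mem' := fun {g h} (hg : cact D C g F = F) (hh : cact D C h F = F) =>
    show cact D C (g * h) F = F by rw [cact_mul, hh, hg]
  one_mem' := cact_one D C F
  inv_mem' := fun {g} (hg : cact D C g F = F) =>
    show cact D C g⁻¹ F = F by
      have h := cact_mul D C g⁻¹ g F
      rw [inv_mul_cancel, cact_one, hg] at h
      exact h.symm

theorem mem_TF (D : XData k L S r d) (C : Co L G Ω S N) (F : Ω → Fin r) (g : G) :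
    g ∈ TF D C F ↔ cact D C g F = F := Iff.rfl

theorem N_le_TF (D : XData k L S r d) (C : Co L G Ω S N) (F : Ω → Fin r) : N ≤ TF D C F :=
  fun x hx => cact_N D C ⟨x, hx⟩ F

/-- The matrices of the tensor power. -/
noncomputable def RM (D : XData k L S r d) (C : Co L G Ω S N) (g : G) :
    Matrix (Ω → Σ i, Fin (d i)) (Ω → Σ i, Fin (d i)) k :=
  Matrix.of fun a b => ∏ j, D.W (C.σ g j) (a (C.π g j)) (b j)

theorem RM_apply (D : XData k L S r d) (C : Co L G Ω S N) (g : G) (a b : Ω → Σ i, Fin (d i)) :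
    RM D C g a b = ∏ j, D.W (C.σ g j) (a (C.π g j)) (b j) := rfl

end

end Pool.Agent.Wex
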