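import Pool.Agent.Wex.Defs

/-! The tensor power of the extended representation, its blocks, and the bound. -/

set_option autoImplicit false

namespace Pool.Agent.Wex

open MonoidAlgebra Pool.Agent.Wil Pool.Agent.Wnx Pool.Agent.Wpp Pool.Agent.Wrc

section
variable {k L G Ω : Type} [Field k] [Group L] [Group G] [Fintype Ω] [DecidableEq Ω] {S : Subgroup L} {N : Subgroup G}
  {r : ℕ} {d : Fin r → ℕ}

-- BEGIN RM_mul
/-- PROOF. Copy the proof of `wr_rep` (Wpp/Wr.lean) with `Ω` for `Fin r` and `L` for `MulAut T`. -/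
theorem RM_mul (D : XData k L S r d) (C : Co L G Ω S N) (g h : G) : RM D C (g * h) = RM D C g * RM D C h := by
  ext1 a b
  rw [Matrix.mul_apply]
  simp only [RM_apply]
  have h1 : ∀ j, D.W (C.σ (g * h) j) (a (C.π (g * h) j)) (b j) =
      ∑ u, D.W (C.σ g (C.π h j)) (a (C.π g (C.π h j))) u * D.W (C.σ h j) u (b j) := by
    intro j
    rw [C.hσ, map_mul, map_mul, Matrix.mul_apply, Equiv.Perm.mul_apply]
  simp only [h1]
  rw [Finset.prod_univ_sum, Fintype.piFinset_univ]
  refine (Fintype.sum_equiv ((C.π h).symm.arrowCongr (Equiv.refl (Σ i, Fin (d i)))) _ _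
    fun w => ?_).symm
  have h2 : ∀ j, ((C.π h).symm.arrowCongr (Equiv.refl (Σ i, Fin (d i)))) w j = w (C.π h j) :=
    fun j => rfl
  simp only [h2]
  rw [Finset.prod_mul_distrib]
  congr 1
  exact (Equiv.prod_comp (C.π h) (fun j => D.W (C.σ g j) (a (C.π g j)) (w j))).symm
-- END RM_mul

-- BEGIN RM_one
/-- PROOF. Copy the proof of `wr_rep` (Wpp/Wr.lean), `Co.σ_one`. -/
theorem RM_one (D : XData k L S r d) (C : Co L G Ω S N) : RM D C 1 = 1 := by
  ext1 a b
  rw [RM_apply, Matrix.one_apply]
  have h1 : ∀ j, D.W (C.σ 1 j) (a ((C.π 1) j)) (b j) = if a j = b j then 1 else 0 := by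
    intro j
    rw [C.σ_one, map_one, map_one, Equiv.Perm.one_apply, Matrix.one_apply]
  simp only [h1]
  rw [Finset.prod_ite_zero]
  simp [funext_iff]
-- END RM_one

/-- The tensor power as a representation of `G`. -/
noncomputable def rho (D : XData k L S r d) (C : Co L G Ω S N) :
    G →* Matrix (Ω → Σ i, Fin (d i)) (Ω → Σ i, Fin (d i)) k where
  toFun := RM D C
  map_one' := RM_one D C
  map_mul' := RM_mul D C

theorem rho_apply (D : XData k L S r d) (C : Co L G Ω S N) (g : G) : rho D C g = RM D C g := rfl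

-- BEGIN rho_block
/-- PROOF. There is `j` with `(a (C.π g j)).1 ≠ cact D C g (fun j => (b j).1) (C.π g j) = D.τ (C.σ g j) (b j).1` (`cact_apply`), so the factor `j` of the product is `0` (`D.block`). -/
theorem rho_block (D : XData k L S r d) (C : Co L G Ω S N) (g : G) (a b : Ω → Σ i, Fin (d i))
    (h : (fun i => (a i).1) ≠ cact D C g (fun i => (b i).1)) : rho D C g a b = 0 := by
  obtain ⟨i, hi⟩ := Function.ne_iff.1 h
  obtain ⟨j, rfl⟩ := (C.π g).surjective i
  rw [cact_apply] at hi
  rw [rho_apply, RM_apply]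
  exact Finset.prod_eq_zero (Finset.mem_univ j) (D.block _ _ _ hi)
-- END rho_block

/-- The block of type `F`. -/
noncomputable def RX (D : XData k L S r d) (C : Co L G Ω S N) (F : Ω → Fin r) (g : G) :
    Matrix (It d F) (It d F) k :=
  (rho D C g).submatrix (fun a => a.1) (fun a => a.1)

-- BEGIN RX_mul
/-- PROOF. `∑` over all `b : Ω → Σ i, Fin (d i)` of `rho g a b * rho h b c`, `a c : It d F`; the terms with `b` not of type `F` are `0` by `rho_block` (the type of `b` would be `cact D C h F = F`), so the sum is over `It d F` (`Finset.sum_subtype` or `Fintype.sum_subset..`; `It d F` is a subtype, use `show` or `unfold It`). -/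
theorem RX_mul (D : XData k L S r d) (C : Co L G Ω S N) (F : Ω → Fin r) (g h : G) (hh : h ∈ TF D C F) :
    RX D C F (g * h) = RX D C F g * RX D C F h := by
  ext a c
  rw [Matrix.mul_apply]
  have hL : RX D C F (g * h) a c = ∑ b : Ω → Σ i, Fin (d i), rho D C g a.1 b * rho D C h b c.1 := by
    show rho D C (g * h) a.1 c.1 = _
    rw [map_mul, Matrix.mul_apply]
  rw [hL]
  symm
  refine Finset.sum_of_injOn (fun b : It d F => b.1) ?_ ?_ ?_ ?_
  · intro b _ b' _ hb
    exact Subtype.ext hb
  · intro _ _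
    exact Finset.mem_coe.2 (Finset.mem_univ _)
  · intro x _ hx
    by_contra hne
    apply hx
    have hx1 : (fun i => (x i).1) = F := by
      by_contra hxF
      apply hne
      have hc : (fun i => (c.1 i).1) = F := funext c.2
      rw [rho_block D C h x c.1 (by rw [hc, (mem_TF D C F h).1 hh]; exact hxF), mul_zero]
    exact ⟨⟨x, fun i => congrFun hx1 i⟩, Finset.mem_coe.2 (Finset.mem_univ _), rfl⟩
  · intro b _
    rfl
-- END RX_mul

-- BEGIN RX_one
/-- PROOF. `map_one`, `Matrix.one_apply`, `Subtype.ext_iff`. -/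
theorem RX_one (D : XData k L S r d) (C : Co L G Ω S N) (F : Ω → Fin r) : RX D C F 1 = 1 := by
  ext a b
  show rho D C 1 a.1 b.1 = _
  rw [map_one]
  by_cases hab : a = b
  · subst hab
    rw [Matrix.one_apply_eq, Matrix.one_apply_eq]
  · rw [Matrix.one_apply_ne hab, Matrix.one_apply_ne fun hc => hab (Subtype.ext hc)]
-- END RX_one

/-- The block of type `F` as a representation of its stabiliser. -/
noncomputable def RF (D : XData k L S r d) (C : Co L G Ω S N) (F : Ω → Fin r) :
    TF D C F →* Matrix (It d F) (It d F) k where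
  toFun g := RX D C F (g : G)
  map_one' := RX_one D C F
  map_mul' g h := RX_mul D C F (g : G) (h : G) h.2

/-- The block of type `F` as a representation of `N`. -/
noncomputable def VF (D : XData k L S r d) (C : Co L G Ω S N) (F : Ω → Fin r) : N →* Matrix (It d F) (It d F) k :=
  (RF D C F).comp (Subgroup.inclusion (N_le_TF D C F))

theorem VF_apply (D : XData k L S r d) (C : Co L G Ω S N) (F : Ω → Fin r) (x : N) : VF D C F x = RX D C F (x : G) := rfl

/-- The tensor power on the group algebra of `N`. -/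
noncomputable def RL (D : XData k L S r d) (C : Co L G Ω S N) :
    MonoidAlgebra k N →ₐ[k] Matrix (Ω → Σ i, Fin (d i)) (Ω → Σ i, Fin (d i)) k :=
  MonoidAlgebra.lift k (Matrix (Ω → Σ i, Fin (d i)) (Ω → Σ i, Fin (d i)) k) N ((rho D C).comp N.subtype)

-- BEGIN tensX
/-- PROOF. Copy the proof of `tens` (Wrc/Rp.lean), with `C.e.symm h` for `inN H P Ω h` (nothing of `C` but the map `C.e.symm` is used). -/
theorem tensX [Finite L] (C : Co L G Ω S N) (u : Ω → MonoidAlgebra k S) :
    ∃ t : MonoidAlgebra k N, ∀ (Φ : MonoidAlgebra k N →ₗ[k] k) (Lf : Ω → MonoidAlgebra k S →ₗ[k] k),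
      (∀ h : Ω → S, Φ (single (C.e.symm h) 1) = ∏ ω, Lf ω (single (h ω) 1)) → Φ t = ∏ ω, Lf ω (u ω) := by
  classical
  have : Fintype S := Fintype.ofFinite S
  have hu : ∀ ω, ∃ c : S → k, u ω = ∑ x, c x • (single x 1 : MonoidAlgebra k S) := by
    intro ω
    induction u ω using MonoidAlgebra.induction_linear with
    | zero => exact ⟨fun _ => 0, by simp⟩
    | add a b ha hb =>
      obtain ⟨c, hc⟩ := ha
      obtain ⟨c', hc'⟩ := hb
      refine ⟨fun x => c x + c' x, ?_⟩
      rw [hc, hc', ← Finset.sum_add_distrib]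
      exact Finset.sum_congr rfl fun x _ => (add_smul _ _ _).symm
    | single m a =>
      refine ⟨fun x => if x = m then a else 0, ?_⟩
      simp [MonoidAlgebra.smul_single]
  choose c hc using hu
  refine ⟨∑ h : Ω → S, (∏ ω, c ω (h ω)) • (single (C.e.symm h) 1 : MonoidAlgebra k N), ?_⟩
  intro Φ Lf hΦ
  rw [map_sum]
  have h1 : ∀ ω, Lf ω (u ω) = ∑ x, c ω x * Lf ω (single x 1) := by
    intro ω
    rw [hc ω, map_sum]
    exact Finset.sum_congr rfl fun x _ => by rw [map_smul, smul_eq_mul]
  rw [Finset.prod_congr rfl fun ω _ => h1 ω, Finset.prod_univ_sum, Fintype.piFinset_univ]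
  refine Finset.sum_congr rfl fun h _ => ?_
  rw [map_smul, hΦ, smul_eq_mul, ← Finset.prod_mul_distrib]
-- END tensX

-- BEGIN RL_tens
/-- PROOF. `tensX` with `Φ m = RL D C m a b`, `Lf ω v = (lift (D.W.comp S.subtype) v) (a ω) (b ω)`: for `m = single x 1`, `x = C.e.symm h`: `rho D C x a b = ∏ j, D.W (C.σ x j) (a (C.π x j)) (b j) = ∏ j, D.W (h j) (a j) (b j)` by `C.hπ`, `C.hN`, `MulEquiv.apply_symm_apply`. -/
theorem RL_tens [Finite L] (D : XData k L S r d) (C : Co L G Ω S N) (u : Ω → MonoidAlgebra k S) :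
    ∃ t : MonoidAlgebra k N, ∀ a b, RL D C t a b =
      ∏ ω, (MonoidAlgebra.lift k (Matrix (Σ i, Fin (d i)) (Σ i, Fin (d i)) k) S (D.W.comp S.subtype) (u ω)) (a ω) (b ω) := by
  obtain ⟨t, ht⟩ := tensX (k := k) C u
  refine ⟨t, fun a b => ?_⟩
  refine ht ((Matrix.entryLinearMap k k a b).comp (RL D C).toLinearMap)
    (fun ω => (Matrix.entryLinearMap k k (a ω) (b ω)).comp
      (MonoidAlgebra.lift k (Matrix (Σ i, Fin (d i)) (Σ i, Fin (d i)) k) S
        (D.W.comp S.subtype)).toLinearMap) ?_
  intro h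
  have h1 : RL D C (single (C.e.symm h) 1) = rho D C ((C.e.symm h : N) : G) := by
    unfold RL
    rw [MonoidAlgebra.lift_single, one_smul]
    rfl
  have h2 : ∀ ω, MonoidAlgebra.lift k (Matrix (Σ i, Fin (d i)) (Σ i, Fin (d i)) k) S
      (D.W.comp S.subtype) (single (h ω) 1) = D.W (h ω : L) := by
    intro ω
    rw [MonoidAlgebra.lift_single, one_smul]
    rfl
  have h3 : RL D C (single (C.e.symm h) 1) a b = ∏ ω, D.W (h ω : L) (a ω) (b ω) := by
    rw [h1, rho_apply, RM_apply, C.hπ]
    refine Finset.prod_congr rfl fun j _ => ?_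
    rw [C.hN, MulEquiv.apply_symm_apply]
    rfl
  have h4 : ∀ ω, (MonoidAlgebra.lift k (Matrix (Σ i, Fin (d i)) (Σ i, Fin (d i)) k) S
      (D.W.comp S.subtype) (single (h ω) 1)) (a ω) (b ω) = D.W (h ω : L) (a ω) (b ω) := by
    intro ω
    rw [h2]
  exact h3.trans (Finset.prod_congr rfl fun ω _ => (h4 ω).symm)
-- END RL_tens

-- BEGIN projX
/-- PROOF. `RL_tens` with `u j = D.e (E j)`, `D.he`, `Finset.prod_ite_zero` or `Finset.prod_eq_zero`. -/
theorem projX [Finite L] (D : XData k L S r d) (C : Co L G Ω S N) (E : Ω → Fin r) :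
    ∃ t : MonoidAlgebra k N, ∀ a b, RL D C t a b = if a = b ∧ (fun j => (a j).1) = E then 1 else 0 := by
  obtain ⟨t, ht⟩ := RL_tens D C fun j => D.e (E j)
  refine ⟨t, fun a b => ?_⟩
  rw [ht]
  by_cases h : a = b ∧ (fun j => (a j).1) = E
  · rw [if_pos h]
    refine Finset.prod_eq_one fun j _ => ?_
    rw [D.he, if_pos ⟨congrFun h.1 j, congrFun h.2 j⟩]
  · rw [if_neg h]
    have h1 : ∃ j, ¬(a j = b j ∧ (a j).1 = E j) := by
      by_contra hcon
      push Not at hcon
      exact h ⟨funext fun j => (hcon j).1, funext fun j => (hcon j).2⟩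
    obtain ⟨j, hj⟩ := h1
    refine Finset.prod_eq_zero (Finset.mem_univ j) ?_
    rw [D.he, if_neg hj]
-- END projX

-- BEGIN RL_conj
/-- PROOF. Both sides are linear in `t` (`MonoidAlgebra.induction_linear`); for `t = single x c`: `conjN` (Wil/Basic.lean) is `MonoidAlgebra.domCongr` of `MulAut.conjNormal g`, so the left side is `c • rho (g * x * g⁻¹)`. -/
theorem RL_conj [N.Normal] (D : XData k L S r d) (C : Co L G Ω S N) (g : G) (t : MonoidAlgebra k N) :
    RL D C (conjN (k := k) N g t) = rho D C g * RL D C t * rho D C g⁻¹ := by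
  induction t using MonoidAlgebra.induction_linear with
  | zero => rw [map_zero, map_zero, mul_zero, zero_mul]
  | add f h hf hh => rw [map_add, map_add, map_add, mul_add, add_mul, hf, hh]
  | single x c =>
    rw [conjN, MonoidAlgebra.domCongr_single, RL, MonoidAlgebra.lift_single,
      MonoidAlgebra.lift_single, MonoidHom.comp_apply, MonoidHom.comp_apply, Subgroup.subtype_apply,
      Subgroup.subtype_apply, MulAut.conjNormal_apply, map_mul, map_mul, mul_smul_comm,
      smul_mul_assoc]
-- END RL_conj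

-- BEGIN VF_entry
/-- PROOF. Both sides are linear in `t` (`MonoidAlgebra.induction_linear`), for `single x c` both are `c * rho x a.1 b.1`. -/
theorem VF_entry (D : XData k L S r d) (C : Co L G Ω S N) (F : Ω → Fin r) (t : MonoidAlgebra k N) (a b : It d F) :
    MonoidAlgebra.lift k (Matrix (It d F) (It d F) k) N (VF D C F) t a b = RL D C t a.1 b.1 := by
  refine MonoidAlgebra.induction_linear t ?_ ?_ ?_
  · rw [map_zero, map_zero, Matrix.zero_apply, Matrix.zero_apply]
  · intro f g hf hg
    rw [map_add, map_add, Matrix.add_apply, Matrix.add_apply, hf, hg]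
  · intro x c
    rw [RL, MonoidAlgebra.lift_single, MonoidAlgebra.lift_single, Matrix.smul_apply,
      Matrix.smul_apply]
    rfl
-- END VF_entry

-- BEGIN cjF
/-- PROOF. `cj N (VF D C F) g⁻¹ t = lift (VF D C F) (conjN N g⁻¹ t)` by definition; by `VF_entry`, `RL_conj` (and `inv_inv`) its entry `(a, b)` is `(rho g⁻¹ * RL t * rho g) a b = ∑ c of type E, rho g⁻¹ a c * rho g c b`. By `rho_block` `rho g c b = 0` unless the type of `c` is `cact D C g F`. So if `E ≠ cact D C g F` the sum is `0`, and if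
`E = cact D C g F` it is the sum over all `c`, the entry of `rho g⁻¹ * rho g = 1`. -/
theorem cjF [N.Normal] (D : XData k L S r d) (C : Co L G Ω S N) (E F : Ω → Fin r) (g : G) (t : MonoidAlgebra k N)
    (ht : ∀ a b, RL D C t a b = if a = b ∧ (fun j => (a j).1) = E then 1 else 0) :
    cj N (VF D C F) g⁻¹ t = if E = cact D C g F then 1 else 0 := by
  classical
  have hentry : ∀ a b : It d F, cj N (VF D C F) g⁻¹ t a b =
      ∑ c : Ω → Σ i, Fin (d i), (if (fun j => (c j).1) = E then 1 else 0) *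
        (rho D C g⁻¹ a.1 c * rho D C g c b.1) := by
    intro a b
    have h1 : cj N (VF D C F) g⁻¹ t a b =
        MonoidAlgebra.lift k (Matrix (It d F) (It d F) k) N (VF D C F)
          (conjN (k := k) N g⁻¹ t) a b := rfl
    rw [h1, VF_entry, RL_conj, inv_inv, Matrix.mul_apply]
    refine Finset.sum_congr rfl fun c _ => ?_
    rw [Matrix.mul_apply, Finset.sum_eq_single c]
    · rw [ht]
      by_cases hc : (fun j => (c j).1) = E
      · rw [if_pos ⟨rfl, hc⟩, if_pos hc]
        ring
      · rw [if_neg fun h => hc h.2, if_neg hc]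
        ring
    · intro c' _ hc'
      rw [ht, if_neg fun h => hc' h.1, mul_zero]
    · intro h
      exact absurd (Finset.mem_univ c) h
  have htyp : ∀ b : It d F, (fun i => (b.1 i).1) = F := fun b => funext fun i => b.2 i
  by_cases hE : E = cact D C g F
  · rw [if_pos hE]
    ext a b
    rw [hentry]
    have h2 : ∀ c : Ω → Σ i, Fin (d i), (if (fun j => (c j).1) = E then 1 else 0) *
        (rho D C g⁻¹ a.1 c * rho D C g c b.1) = rho D C g⁻¹ a.1 c * rho D C g c b.1 := by
      intro c
      by_cases hc : (fun j => (c j).1) = E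
      · rw [if_pos hc, one_mul]
      · have h3 : rho D C g c b.1 = 0 := by
          refine rho_block D C g c b.1 ?_
          rw [htyp b, ← hE]
          exact hc
        rw [h3, mul_zero, mul_zero]
    rw [Finset.sum_congr rfl fun c _ => h2 c, ← Matrix.mul_apply, ← map_mul, inv_mul_cancel,
      map_one, Matrix.one_apply, Matrix.one_apply]
    by_cases hab : a = b
    · rw [if_pos hab, if_pos (congrArg Subtype.val hab)]
    · rw [if_neg hab, if_neg fun h => hab (Subtype.ext h)]
  · rw [if_neg hE]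
    ext a b
    rw [hentry]
    refine Finset.sum_eq_zero fun c _ => ?_
    by_cases hc : (fun j => (c j).1) = E
    · have h3 : rho D C g c b.1 = 0 := by
        refine rho_block D C g c b.1 ?_
        rw [htyp b, hc]
        exact hE
      rw [h3, mul_zero, mul_zero]
    · rw [if_neg hc, zero_mul]
-- END cjF

-- BEGIN VF_span
private theorem vfspan_mem (D : XData k L S r d) (C : Co L G Ω S N) (F : Ω → Fin r) (t : MonoidAlgebra k N) :
    MonoidAlgebra.lift k (Matrix (It d F) (It d F) k) N (VF D C F) t ∈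
      Submodule.span k (Set.range (VF D C F)) := by
  induction t using MonoidAlgebra.induction_linear with
  | zero => rw [map_zero]; exact Submodule.zero_mem _
  | add a b ha hb => rw [map_add]; exact Submodule.add_mem _ ha hb
  | single n c =>
    rw [MonoidAlgebra.lift_single]
    exact Submodule.smul_mem _ _ (Submodule.subset_span ⟨_, rfl⟩)

/-- PROOF. For `a₀ b₀ : It d F` take `u j` from `D.unit (a₀.1 j) (b₀.1 j)`; by `RL_tens` and `VF_entry` the image of `t` is `Matrix.single a₀ b₀ 1`; the range of the lift of `VF` is in the span of the range of `VF`. Copy the proof of `VV_span` (Wrc/Rp.lean). -/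
theorem VF_span [Finite L] (D : XData k L S r d) (C : Co L G Ω S N) (F : Ω → Fin r) :
    Submodule.span k (Set.range (VF D C F)) = ⊤ := by
  have key : ∀ a₀ b₀ : It d F, Matrix.single a₀ b₀ (1 : k) ∈
      Submodule.span k (Set.range (VF D C F)) := by
    intro a₀ b₀
    have hj : ∀ ω, (a₀.1 ω).1 = (b₀.1 ω).1 := fun ω => by rw [a₀.2 ω, b₀.2 ω]
    choose u hu using fun ω => D.unit (a₀.1 ω) (b₀.1 ω) (hj ω)
    obtain ⟨t, ht⟩ := RL_tens D C u
    have h1 : MonoidAlgebra.lift k (Matrix (It d F) (It d F) k) N (VF D C F) t =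
        Matrix.single a₀ b₀ (1 : k) := by
      ext a b
      rw [VF_entry D C F t a b, ht a.1 b.1, Finset.prod_congr rfl fun ω _ => hu ω (a.1 ω) (b.1 ω),
        Matrix.single_apply]
      by_cases hab : a = a₀ ∧ b = b₀
      · obtain ⟨rfl, rfl⟩ := hab
        rw [if_pos ⟨rfl, rfl⟩]
        exact Finset.prod_eq_one fun ω _ => if_pos ⟨rfl, rfl⟩
      · rw [if_neg (fun h => hab ⟨h.1.symm, h.2.symm⟩)]
        have h5 : ∃ ω, ¬ (a.1 ω = a₀.1 ω ∧ b.1 ω = b₀.1 ω) := by
          by_contra hcon
          push Not at hcon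
          exact hab ⟨Subtype.ext (funext fun ω => (hcon ω).1), Subtype.ext (funext fun ω => (hcon ω).2)⟩
        obtain ⟨ω, hω⟩ := h5
        exact Finset.prod_eq_zero (Finset.mem_univ ω) (if_neg hω)
    rw [← h1]
    exact vfspan_mem D C F t
  rw [eq_top_iff]
  intro M _
  rw [Matrix.matrix_eq_sum_single M]
  refine Submodule.sum_mem _ fun i _ => Submodule.sum_mem _ fun j _ => ?_
  have h6 : Matrix.single i j (M i j) = M i j • Matrix.single i j (1 : k) := by
    rw [Matrix.smul_single, smul_eq_mul, mul_one]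
  rw [h6]
  exact Submodule.smul_mem _ _ (key i j)
-- END VF_span

end

-- BEGIN orbG
/-- PROOF. As `orbits` (Wrc/Mn.lean): `X = MulAction.orbitRel.Quotient G Y`, `rep = Quotient.out`, the sum over `Y` is the sum over the orbits, `w` is constant on orbits and the orbit of `y` has `(MulAction.stabilizer G y).index` elements. -/
theorem orbG {G Y : Type} [Group G] [Finite G] [MulAction G Y] [Fintype Y] (w : Y → ℕ)
    (hw : ∀ (g : G) (y : Y), w (g • y) = w y) :
    ∃ (X : Type) (_ : Fintype X) (rep : X → Y), (∀ (x y : X) (g : G), g • rep x = rep y → x = y) ∧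
      ∑ x, (MulAction.stabilizer G (rep x)).index * w (rep x) = ∑ y, w y := by
  classical
  let hX : Fintype (MulAction.orbitRel.Quotient G Y) := Fintype.ofFinite _
  have hmk : ∀ f g : Y, (Quotient.mk (MulAction.orbitRel G Y) f =
      Quotient.mk (MulAction.orbitRel G Y) g) ↔ f ∈ MulAction.orbit G g := by
    intro f g
    rw [Quotient.eq]
    exact MulAction.orbitRel_apply
  refine ⟨MulAction.orbitRel.Quotient G Y, hX, fun x => Quotient.out x, ?_, ?_⟩
  · intro x y g h
    symm
    rw [← Quotient.out_eq x, ← Quotient.out_eq y, hmk]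
    exact ⟨g, h⟩
  · rw [← Finset.sum_fiberwise Finset.univ
      (fun f : Y => (Quotient.mk (MulAction.orbitRel G Y) f :
        MulAction.orbitRel.Quotient G Y)) w]
    refine Finset.sum_congr rfl fun x _ => ?_
    have h1 : ∀ f ∈ Finset.univ.filter (fun f : Y =>
        (Quotient.mk (MulAction.orbitRel G Y) f :
          MulAction.orbitRel.Quotient G Y) = x), w f = w (Quotient.out x) := by
      intro f hf
      have h2 := (Finset.mem_filter.1 hf).2
      rw [← Quotient.out_eq x, hmk] at h2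
      obtain ⟨p, hp⟩ := h2
      rw [← hp]
      exact hw p (Quotient.out x)
    rw [Finset.sum_congr rfl h1, Finset.sum_const, smul_eq_mul]
    congr 1
    rw [MulAction.index_stabilizer, ← Set.ncard_coe_finset]
    congr 1
    ext f
    rw [Finset.coe_filter, Set.mem_ofPred_eq]
    rw [← hmk, Quotient.out_eq]
    simp
-- END orbG

-- BEGIN quot_bound
/-- PROOF. `Q = T.map (QuotientGroup.mk' N)`: `Q.index = T.index` (`Subgroup.index_map_of_..` with `N ≤ T`, or `Subgroup.index_comap_of_surjective`), `T ⧸ N.subgroupOf T ≃* Q` (first isomorphism theorem; see `TT_quot`, Wrc/Rp.lean), `ssDim_congr` (Wil/Rel.lean), `pp_index` (Wrc/Mn.lean) for `Q`, `hQ`. -/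
theorem quot_bound (p : ℕ) {k G : Type} [Field k] [Group G] [Finite G] (N T : Subgroup G) [N.Normal] (hNT : N ≤ T)
    (hQ : ∀ Q : Subgroup (G ⧸ N), pPrimePart p (Nat.card Q) ≤ ssDim k Q) :
    pPrimePart p (Nat.card (G ⧸ N)) ≤ T.index * ssDim k (T ⧸ N.subgroupOf T) := by
  have h1 : (T.map (QuotientGroup.mk' N)).index = T.index :=
    Subgroup.index_map_eq T (QuotientGroup.mk'_surjective N) (by rw [QuotientGroup.ker_mk']; exact hNT)
  have h2 : ((QuotientGroup.mk' N).subgroupMap T).ker = N.subgroupOf T := by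
    rw [Subgroup.ker_subgroupMap, QuotientGroup.ker_mk']
  have e : (T ⧸ N.subgroupOf T) ≃* (T.map (QuotientGroup.mk' N)) :=
    (QuotientGroup.quotientMulEquivOfEq h2.symm).trans
      (QuotientGroup.quotientKerEquivOfSurjective ((QuotientGroup.mk' N).subgroupMap T)
        ((QuotientGroup.mk' N).subgroupMap_surjective T))
  have h3 : ssDim k (T ⧸ N.subgroupOf T) = ssDim k (T.map (QuotientGroup.mk' N)) := ssDim_congr e
  rw [h3, ← h1]
  exact (pp_index p (T.map (QuotientGroup.mk' N))).trans (Nat.mul_le_mul_left _ (hQ _))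
-- END quot_bound

-- BEGIN boundX
private theorem boundx_sum {Ω : Type} [Fintype Ω] [DecidableEq Ω] {r : ℕ} (d : Fin r → ℕ) :
    ∑ f : Ω → Fin r, (∏ ω, d (f ω)) ^ 2 = (∑ i, d i ^ 2) ^ Fintype.card Ω := by
  have h := Finset.prod_univ_sum (fun _ : Ω => (Finset.univ : Finset (Fin r))) (fun _ i => d i ^ 2)
  rw [Finset.prod_const, Fintype.piFinset_univ, Finset.card_univ] at h
  rw [h]
  exact Finset.sum_congr rfl fun f _ => (Finset.prod_pow Finset.univ 2 (fun ω => d (f ω))).symm

private theorem boundx_key {k L G Ω : Type} [Field k] [Group L] [Finite L] [Group G] [Finite G] [Fintype Ω]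
    [DecidableEq Ω] {S : Subgroup L} {N : Subgroup G} [N.Normal] {r : ℕ} {d : Fin r → ℕ}
    (D : XData k L S r d) (C : Co L G Ω S N) (X : Type) [Fintype X] (rep : X → Ω → Fin r)
    (hrep : ∀ (x y : X) (g : G), cact D C g (rep x) = rep y → x = y) :
    ∑ x, (TF D C (rep x)).index ^ 2 * ((∏ ω, d (rep x ω)) ^ 2 *
      ssDim k (TF D C (rep x) ⧸ N.subgroupOf (TF D C (rep x)))) ≤ ssDim k G := by
  choose t ht using fun E : Ω → Fin r => projX D C E
  have key := multi_bound (k := k) (G := G) N (fun x : X => TF D C (rep x))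
    (fun x => N_le_TF D C (rep x)) (fun x => It d (rep x))
    (fun x => VF D C (rep x)) (fun x => RF D C (rep x)) (fun x n h => rfl)
    (fun x => VF_span D C (rep x)) (fun x g => t (cact D C g (rep x)))
    (fun x g => by
      rw [cjF D C (cact D C g (rep x)) (rep x) g _ (ht _), if_pos rfl])
    (fun x g y g' hxy => by
      rw [cjF D C (cact D C g (rep x)) (rep y) g' _ (ht _), if_neg]
      intro h
      have h1 : cact D C (g'⁻¹ * g) (rep x) = rep y := by
        rw [cact_mul, h, ← cact_mul, inv_mul_cancel, cact_one]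
      have h2 : x = y := hrep x y _ h1
      refine hxy ⟨h2, ?_⟩
      subst h2
      rw [mem_TF, cact_mul, ← h, ← cact_mul, inv_mul_cancel, cact_one])
  refine le_trans (le_of_eq (Finset.sum_congr rfl fun x _ => ?_)) key
  rw [card_It]

/-- PROOF. Let `MulAction G (Ω → Fin r)` be given by `cact D C` (`letI`, `cact_one`, `cact_mul`); the stabiliser of `F` is `TF D C F`. `w F = (∏ j, d (F j)) ^ 2` is invariant: `∏ i, d (cact D C g F i) = ∏ j, d (cact D C g F (C.π g j)) = ∏ j, d (F j)` (`Equiv.prod_comp`, `cact_apply`, `D.hd`). `orbG`: `X`, `rep`.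
`multi_bound` (Wrc/Cl.lean) with `T x = TF D C (rep x)`, `ι x = It d (rep x)`, `V x = VF`, `ρ x = RF` (`hρ` is `rfl`), `hV` = `VF_span`, `b x g` = the `t` of `projX` for `E = cact D C g (rep x)`, `h1`, `h0` by `cjF`: if `cact g (rep x) = cact g' (rep y)` then `cact (g'⁻¹ * g) (rep x) = rep y`, so `x = y` and `g'⁻¹ * g ∈ TF`, so `g⁻¹ * g' ∈ TF`.
`card_It` (Wrc/Rp.lean). By `quot_bound` the left side of `multi_bound` is at least `pPrimePart p (card (G ⧸ N)) * ∑ x, index * w (rep x) = pPrimePart .. * ∑ F, ∏ j, d (F j) ^ 2 = pPrimePart .. * (∑ i, d i ^ 2) ^ card Ω` (`Finset.prod_univ_sum`, `Fintype.piFinset_univ`; see the end of the proof of `wr_closed`, Wrc/Mn.lean), `D.sum`. -/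
theorem boundX (p : ℕ) {k L G Ω : Type} [Field k] [Group L] [Finite L] [Group G] [Finite G] [Fintype Ω] [DecidableEq Ω]
    {S : Subgroup L} {N : Subgroup G} [N.Normal] {r : ℕ} {d : Fin r → ℕ} (D : XData k L S r d) (C : Co L G Ω S N)
    (hQ : ∀ Q : Subgroup (G ⧸ N), pPrimePart p (Nat.card Q) ≤ ssDim k Q) :
    pPrimePart p (Nat.card (G ⧸ N)) * ssDim k S ^ Fintype.card Ω ≤ ssDim k G := by
  letI act : MulAction G (Ω → Fin r) :=
    { smul := fun g F => cact D C g F
      one_smul := fun F => cact_one D C F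
      mul_smul := fun g h F => cact_mul D C g h F }
  have hstab : ∀ F : Ω → Fin r, MulAction.stabilizer G F = TF D C F := fun F => by
    ext g
    exact Iff.rfl
  have hw : ∀ (g : G) (F : Ω → Fin r),
      (∏ ω, d ((g • F) ω)) ^ 2 = (∏ ω, d (F ω)) ^ 2 := by
    intro g F
    congr 1
    rw [← Equiv.prod_comp (C.π g) (fun ω => d ((g • F) ω))]
    refine Finset.prod_congr rfl fun j _ => ?_
    show d (cact D C g F (C.π g j)) = d (F j)
    rw [cact_apply, D.hd]
  obtain ⟨X, hX, rep, hrep, hsum⟩ := orbG (G := G) (fun F : Ω → Fin r => (∏ ω, d (F ω)) ^ 2) hw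
  refine le_trans ?_ (boundx_key D C X rep hrep)
  rw [← D.sum, ← boundx_sum d, ← hsum, Finset.mul_sum]
  refine Finset.sum_le_sum fun x _ => ?_
  have h1 := quot_bound p (k := k) N (TF D C (rep x)) (N_le_TF D C (rep x)) hQ
  rw [hstab]
  calc pPrimePart p (Nat.card (G ⧸ N)) * ((TF D C (rep x)).index * (∏ ω, d (rep x ω)) ^ 2)
      ≤ ((TF D C (rep x)).index * ssDim k (TF D C (rep x) ⧸ N.subgroupOf (TF D C (rep x)))) *
          ((TF D C (rep x)).index * (∏ ω, d (rep x ω)) ^ 2) :=
        Nat.mul_le_mul_right _ h1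
    _ = (TF D C (rep x)).index ^ 2 * ((∏ ω, d (rep x ω)) ^ 2 *
          ssDim k (TF D C (rep x) ⧸ N.subgroupOf (TF D C (rep x)))) := by
        ring
-- END boundX

end Pool.Agent.Wex
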